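import Pool.Agent.X205.JT.Dual

/-!
# The spaces `J` and `JT`
-/

set_option autoImplicit false

namespace Pool.Agent.X205.JT

open UniformSpace

/-- James' quasi-reflexive space: the completion of the finitely supported real sequences under
`sup (∑_j (∑_{n ∈ I_j} x_n)^2)^(1/2)`, the supremum over finite families of pairwise disjoint
intervals `I_j` of `ℕ`. -/
def J : Type := Completion (JSp natSys)

noncomputable instance J.instNACG : NormedAddCommGroup J :=
  inferInstanceAs (NormedAddCommGroup (Completion (JSp natSys)))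

noncomputable instance J.instNS : NormedSpace ℝ J :=
  inferInstanceAs (NormedSpace ℝ (Completion (JSp natSys)))

/-- The James tree space: the completion of the finitely supported functions on the dyadic tree
under `sup (∑_{S ∈ P} (∑_{α ∈ S} x(α))^2)^(1/2)`, the supremum over finite families `P` of
pairwise disjoint segments. -/
def JT : Type := Completion (JSp treeSys)

noncomputable instance JT.instNACG : NormedAddCommGroup JT :=
  inferInstanceAs (NormedAddCommGroup (Completion (JSp treeSys)))

noncomputable instance JT.instNS : NormedSpace ℝ JT :=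
  inferInstanceAs (NormedSpace ℝ (Completion (JSp treeSys)))

/-- Reflexivity: the canonical map into the bidual is onto. -/
def IsReflexive (Y : Type) [NormedAddCommGroup Y] [NormedSpace ℝ Y] : Prop :=
  Function.Surjective (NormedSpace.inclusionInDoubleDual ℝ Y)

/-- `Y` has a closed subspace isomorphic to `Z`. -/
def ContainsCopy (Y Z : Type) [NormedAddCommGroup Y] [NormedSpace ℝ Y]
    [NormedAddCommGroup Z] [NormedSpace ℝ Z] : Prop :=
  ∃ M : Submodule ℝ Y, IsClosed (M : Set Y) ∧ Nonempty (Z ≃L[ℝ] M)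

theorem main' (Y : Submodule ℝ (StrongDual ℝ JT)) (hY : IsClosed (Y : Set (StrongDual ℝ JT)))
    (hnr : ¬ IsReflexive Y) : ContainsCopy Y (StrongDual ℝ J) := by
  have : CompleteSpace Y := hY.completeSpace_coe
  unfold IsReflexive Function.Surjective at hnr
  push Not at hnr
  obtain ⟨Ψ, hΨ⟩ := hnr
  have hΨ' : ¬ ∃ w : Y, ∀ f : StrongDual ℝ Y, f w = Ψ f := by
    rintro ⟨w, hw⟩
    apply hΨ w
    ext f
    rw [NormedSpace.dual_def]
    exact hw f
  let R : Y →ₗᵢ[ℝ] StrongDual ℝ (JSp treeSys) :=
    (resC (E := JSp treeSys)).comp Y.subtypeₗᵢ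
  obtain ⟨Φ, c, hc, hΦ⟩ := core (W := Y) R Ψ hΨ'
  let RJ : StrongDual ℝ J →ₗᵢ[ℝ] StrongDual ℝ (JSp natSys) := resC (E := JSp natSys)
  set A : StrongDual ℝ J →L[ℝ] Y := Φ.comp RJ.toContinuousLinearMap with hA
  have hAl : ∀ g, c * ‖g‖ ≤ ‖A g‖ := by
    intro g
    have h1 := hΦ (RJ g)
    rw [RJ.norm_map] at h1
    exact h1
  obtain ⟨h1, h2⟩ := copy_of_lower (D := StrongDual ℝ J) (X := Y) A hc hAl
  exact ⟨LinearMap.range (A : StrongDual ℝ J →ₗ[ℝ] Y), by
    rw [LinearMap.coe_range]; exact h1, h2⟩

end Pool.Agent.X205.JT
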