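import Mathlib

/-!
# James type norms given by a system of segments
-/

set_option autoImplicit false

namespace Pool.Agent.X205.JT

open Finset

/-- A system of finite sets (the segments) on `X` containing all singletons. -/
structure SegSys (X : Type) where
  /-- the segments -/
  sets : Set (Finset X)
  single_mem : ∀ a, {a} ∈ sets

section

variable {X : Type} (𝒮 : SegSys X)

/-- Finite families of pairwise disjoint segments. -/
def Adm (P : Finset (Finset X)) : Prop :=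
  (∀ S ∈ P, S ∈ 𝒮.sets) ∧ ∀ S ∈ P, ∀ S' ∈ P, S ≠ S' → Disjoint S S'

/-- The James type norm `sup (∑_S (∑_{a ∈ S} x a)^2)^(1/2)` of a finitely supported function, the
supremum over all finite families of pairwise disjoint segments. -/
noncomputable def jn (x : X →₀ ℝ) : ℝ :=
  sSup {r | ∃ P, Adm 𝒮 P ∧ r = √(∑ S ∈ P, (∑ a ∈ S, x a) ^ 2)}

theorem adm_empty : Adm 𝒮 ∅ := ⟨by simp, by simp⟩

theorem sq_sum_le {ι : Type} (s : Finset ι) {f : ι → ℝ} (hf : ∀ i, 0 ≤ f i) :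
    ∑ i ∈ s, f i ^ 2 ≤ (∑ i ∈ s, f i) ^ 2 := by
  rw [pow_two (∑ i ∈ s, f i), sum_mul]
  refine sum_le_sum fun i hi => ?_
  rw [pow_two]
  exact mul_le_mul_of_nonneg_left (single_le_sum (fun j _ => hf j) hi) (hf i)

variable {𝒮}

theorem val_le (x : X →₀ ℝ) {P : Finset (Finset X)} (hP : Adm 𝒮 P) :
    ∑ S ∈ P, (∑ a ∈ S, x a) ^ 2 ≤ (∑ a ∈ x.support, |x a|) ^ 2 := by
  classical
  have h1 : ∑ S ∈ P, (∑ a ∈ S, x a) ^ 2 ≤ (∑ S ∈ P, ∑ a ∈ S, |x a|) ^ 2 := by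
    refine le_trans (sum_le_sum fun S _ => ?_) (sq_sum_le P fun S => sum_nonneg fun a _ =>
      abs_nonneg (x a))
    rw [← sq_abs (∑ a ∈ S, x a)]
    exact pow_le_pow_left₀ (abs_nonneg _) (abs_sum_le_sum_abs _ _) 2
  refine h1.trans (pow_le_pow_left₀ (sum_nonneg fun S _ => sum_nonneg fun a _ => abs_nonneg _) ?_ 2)
  have h2 : ∑ S ∈ P, ∑ a ∈ S, |x a| = ∑ a ∈ P.biUnion id, |x a| := by
    rw [sum_biUnion]
    · rfl
    · intro S hS S' hS' hne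
      exact hP.2 S hS S' hS' hne
  rw [h2]
  have h3 : ∑ a ∈ P.biUnion id, |x a| = ∑ a ∈ (P.biUnion id).filter (fun a => x a ≠ 0), |x a| := by
    rw [sum_filter]
    refine sum_congr rfl fun a _ => ?_
    split_ifs with h
    · rfl
    · rw [not_not.1 h, abs_zero]
  rw [h3]
  apply sum_le_sum_of_subset_of_nonneg
  · intro a ha
    rw [Finsupp.mem_support_iff]
    exact (mem_filter.1 ha).2
  · intro a _ _
    exact abs_nonneg _

theorem bdd (x : X →₀ ℝ) :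
    BddAbove {r | ∃ P, Adm 𝒮 P ∧ r = √(∑ S ∈ P, (∑ a ∈ S, x a) ^ 2)} := by
  refine ⟨∑ a ∈ x.support, |x a|, ?_⟩
  rintro r ⟨P, hP, rfl⟩
  rw [Real.sqrt_le_left (sum_nonneg fun a _ => abs_nonneg _)]
  exact val_le x hP

theorem jn_nonneg (x : X →₀ ℝ) : 0 ≤ jn 𝒮 x := by
  apply Real.sSup_nonneg
  rintro r ⟨P, -, rfl⟩
  exact Real.sqrt_nonneg _

theorem le_jn (x : X →₀ ℝ) {P : Finset (Finset X)} (hP : Adm 𝒮 P) :
    ∑ S ∈ P, (∑ a ∈ S, x a) ^ 2 ≤ jn 𝒮 x ^ 2 := by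
  have h0 : 0 ≤ ∑ S ∈ P, (∑ a ∈ S, x a) ^ 2 := sum_nonneg fun S _ => sq_nonneg _
  have h1 : √(∑ S ∈ P, (∑ a ∈ S, x a) ^ 2) ≤ jn 𝒮 x := le_csSup (bdd x) ⟨P, hP, rfl⟩
  calc ∑ S ∈ P, (∑ a ∈ S, x a) ^ 2 = √(∑ S ∈ P, (∑ a ∈ S, x a) ^ 2) ^ 2 := (Real.sq_sqrt h0).symm
    _ ≤ _ := pow_le_pow_left₀ (Real.sqrt_nonneg _) h1 2

theorem nonempty (x : X →₀ ℝ) :
    {r | ∃ P, Adm 𝒮 P ∧ r = √(∑ S ∈ P, (∑ a ∈ S, x a) ^ 2)}.Nonempty :=
  ⟨0, ∅, adm_empty 𝒮, by simp⟩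

theorem jn_le {x : X →₀ ℝ} {C : ℝ} (hC : 0 ≤ C)
    (h : ∀ P, Adm 𝒮 P → ∑ S ∈ P, (∑ a ∈ S, x a) ^ 2 ≤ C ^ 2) : jn 𝒮 x ≤ C := by
  apply csSup_le (nonempty x)
  rintro r ⟨P, hP, rfl⟩
  rw [Real.sqrt_le_left hC]
  exact h P hP

theorem jn_sq_le {x : X →₀ ℝ} {B : ℝ} (hB : 0 ≤ B)
    (h : ∀ P, Adm 𝒮 P → ∑ S ∈ P, (∑ a ∈ S, x a) ^ 2 ≤ B) : jn 𝒮 x ^ 2 ≤ B := by
  have h1 : jn 𝒮 x ≤ √B := jn_le (Real.sqrt_nonneg _) fun P hP => by
    rw [Real.sq_sqrt hB]; exact h P hP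
  calc jn 𝒮 x ^ 2 ≤ √B ^ 2 := pow_le_pow_left₀ (jn_nonneg x) h1 2
    _ = B := Real.sq_sqrt hB

theorem l2_add {ι : Type} (s : Finset ι) (a b : ι → ℝ) :
    √(∑ i ∈ s, (a i + b i) ^ 2) ≤ √(∑ i ∈ s, a i ^ 2) + √(∑ i ∈ s, b i ^ 2) := by
  have hA : 0 ≤ ∑ i ∈ s, a i ^ 2 := sum_nonneg fun i _ => sq_nonneg _
  have hB : 0 ≤ ∑ i ∈ s, b i ^ 2 := sum_nonneg fun i _ => sq_nonneg _
  rw [Real.sqrt_le_left (by positivity)]
  have h1 : ∑ i ∈ s, (a i + b i) ^ 2 = ∑ i ∈ s, a i ^ 2 + ∑ i ∈ s, b i ^ 2 +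
      2 * ∑ i ∈ s, a i * b i := by
    rw [mul_sum, ← sum_add_distrib, ← sum_add_distrib]
    exact sum_congr rfl fun i _ => by ring
  have h2 : ∑ i ∈ s, a i * b i ≤ √(∑ i ∈ s, a i ^ 2) * √(∑ i ∈ s, b i ^ 2) := by
    rw [← Real.sqrt_mul hA]
    exact Real.le_sqrt_of_sq_le (sum_mul_sq_le_sq_mul_sq s a b)
  rw [h1, add_sq, Real.sq_sqrt hA, Real.sq_sqrt hB]
  linarith

theorem jn_add (x y : X →₀ ℝ) : jn 𝒮 (x + y) ≤ jn 𝒮 x + jn 𝒮 y := by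
  have h0 := jn_nonneg (𝒮 := 𝒮) x
  have h0' := jn_nonneg (𝒮 := 𝒮) y
  apply csSup_le (nonempty _)
  rintro r ⟨P, hP, rfl⟩
  have h1 : ∀ S, ∑ a ∈ S, (x + y) a = ∑ a ∈ S, x a + ∑ a ∈ S, y a := by
    intro S
    rw [← sum_add_distrib]; rfl
  simp only [h1]
  refine (l2_add P _ _).trans (add_le_add ?_ ?_)
  · exact le_csSup (bdd x) ⟨P, hP, rfl⟩
  · exact le_csSup (bdd y) ⟨P, hP, rfl⟩

theorem jn_smul (c : ℝ) (x : X →₀ ℝ) : jn 𝒮 (c • x) = |c| * jn 𝒮 x := by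
  have key : ∀ (c : ℝ) (x : X →₀ ℝ), jn 𝒮 (c • x) ≤ |c| * jn 𝒮 x := by
    intro c x
    apply jn_le (mul_nonneg (abs_nonneg _) (jn_nonneg _))
    intro P hP
    have h1 : ∑ S ∈ P, (∑ a ∈ S, (c • x) a) ^ 2 = c ^ 2 * ∑ S ∈ P, (∑ a ∈ S, x a) ^ 2 := by
      rw [mul_sum]
      refine sum_congr rfl fun S _ => ?_
      simp only [Finsupp.smul_apply, smul_eq_mul, ← mul_sum]
      ring
    rw [h1, mul_pow, sq_abs]
    exact mul_le_mul_of_nonneg_left (le_jn x hP) (sq_nonneg _)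
  apply le_antisymm (key c x)
  by_cases hc : c = 0
  · rw [hc, abs_zero, zero_mul]; exact jn_nonneg _
  · have h1 := key c⁻¹ (c • x)
    rw [smul_smul, inv_mul_cancel₀ hc, one_smul, abs_inv] at h1
    have hpos : 0 < |c| := abs_pos.2 hc
    calc |c| * jn 𝒮 x ≤ |c| * (|c|⁻¹ * jn 𝒮 (c • x)) := mul_le_mul_of_nonneg_left h1 hpos.le
      _ = jn 𝒮 (c • x) := by rw [← mul_assoc, mul_inv_cancel₀ hpos.ne', one_mul]

theorem jn_zero : jn 𝒮 (0 : X →₀ ℝ) = 0 := by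
  have := jn_smul (𝒮 := 𝒮) 0 (0 : X →₀ ℝ)
  simpa using this

theorem jn_neg (x : X →₀ ℝ) : jn 𝒮 (-x) = jn 𝒮 x := by
  have := jn_smul (𝒮 := 𝒮) (-1) x
  simpa using this

theorem jn_sub (x y : X →₀ ℝ) : jn 𝒮 (x - y) ≤ jn 𝒮 x + jn 𝒮 y := by
  rw [sub_eq_add_neg]
  refine (jn_add _ _).trans ?_
  rw [jn_neg]

/-- a single segment -/
theorem seg_le (x : X →₀ ℝ) {S : Finset X} (hS : S ∈ 𝒮.sets) : |∑ a ∈ S, x a| ≤ jn 𝒮 x := by
  have h := le_jn (𝒮 := 𝒮) x (P := {S}) ⟨by simpa using hS, by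
    intro A hA B hB hne
    rw [mem_singleton] at hA hB
    exact absurd (hA.trans hB.symm) hne⟩
  rw [sum_singleton] at h
  exact abs_le_of_sq_le_sq h (jn_nonneg x)

theorem apply_le (x : X →₀ ℝ) (a : X) : |x a| ≤ jn 𝒮 x := by
  have := seg_le (𝒮 := 𝒮) x (𝒮.single_mem a)
  rwa [sum_singleton] at this

theorem jn_eq_zero {x : X →₀ ℝ} (h : jn 𝒮 x = 0) : x = 0 := by
  ext a
  have := apply_le (𝒮 := 𝒮) x a
  rw [h] at this
  simpa using abs_eq_zero.1 (le_antisymm this (abs_nonneg _))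

/-- indexed families of disjoint segments, some of which may be empty -/
theorem fam (x : X →₀ ℝ) {ι : Type} (R : Finset ι) (S : ι → Finset X)
    (hS : ∀ k ∈ R, S k ∈ 𝒮.sets ∨ S k = ∅)
    (hd : ∀ k ∈ R, ∀ k' ∈ R, k ≠ k' → Disjoint (S k) (S k')) :
    ∑ k ∈ R, (∑ a ∈ S k, x a) ^ 2 ≤ jn 𝒮 x ^ 2 := by
  classical
  set R' := R.filter (fun k => (S k).Nonempty) with hR'
  have h1 : ∑ k ∈ R, (∑ a ∈ S k, x a) ^ 2 = ∑ k ∈ R', (∑ a ∈ S k, x a) ^ 2 := by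
    rw [hR', sum_filter]
    refine sum_congr rfl fun k _ => ?_
    split_ifs with h
    · rfl
    · rw [not_nonempty_iff_eq_empty.1 h, sum_empty]; norm_num
  have hinj : Set.InjOn S (R' : Set ι) := by
    intro k hk k' hk' heq
    by_contra hne
    have hk1 := mem_filter.1 (mem_coe.1 hk)
    have hk2 := mem_filter.1 (mem_coe.1 hk')
    have := hd k hk1.1 k' hk2.1 hne
    rw [← heq, disjoint_self] at this
    exact hk1.2.ne_empty this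
  rw [h1, ← sum_image (f := fun T : Finset X => (∑ a ∈ T, x a) ^ 2) hinj]
  apply le_jn
  constructor
  · intro T hT
    obtain ⟨k, hk, rfl⟩ := mem_image.1 hT
    have hk1 := mem_filter.1 hk
    rcases hS k hk1.1 with h | h
    · exact h
    · exact absurd h hk1.2.ne_empty
  · intro T hT T' hT' hne
    obtain ⟨k, hk, rfl⟩ := mem_image.1 hT
    obtain ⟨k', hk', rfl⟩ := mem_image.1 hT'
    exact hd k (mem_filter.1 hk).1 k' (mem_filter.1 hk').1 fun h => hne (by rw [h])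

/-- a convex predicate -/
def Cvx (𝒮 : SegSys X) (p : X → Prop) [DecidablePred p] : Prop :=
  ∀ S ∈ 𝒮.sets, S.filter p ∈ 𝒮.sets ∨ S.filter p = ∅

theorem sum_filter_apply (x : X →₀ ℝ) (p : X → Prop) [DecidablePred p] (S : Finset X) :
    ∑ a ∈ S, (x.filter p) a = ∑ a ∈ S.filter p, x a := by
  rw [sum_filter]
  exact sum_congr rfl fun a _ => Finsupp.filter_apply p x a

theorem jn_filter (x : X →₀ ℝ) {p : X → Prop} [DecidablePred p] (hp : Cvx 𝒮 p) :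
    jn 𝒮 (x.filter p) ≤ jn 𝒮 x := by
  apply jn_le (jn_nonneg x)
  intro P hP
  simp only [sum_filter_apply]
  exact fam x P (fun S => S.filter p) (fun S hS => hp S (hP.1 S hS))
    fun S hS S' hS' hne => (hP.2 S hS S' hS' hne).mono (filter_subset _ _) (filter_subset _ _)

theorem jn_filter_two (x : X →₀ ℝ) {p q : X → Prop} [DecidablePred p] [DecidablePred q]
    (hp : Cvx 𝒮 p) (hq : Cvx 𝒮 q) (hpq : ∀ a, p a → ¬ q a) :
    jn 𝒮 (x.filter p) ^ 2 + jn 𝒮 (x.filter q) ^ 2 ≤ jn 𝒮 x ^ 2 := by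
  classical
  have key : ∀ P Q, Adm 𝒮 P → Adm 𝒮 Q → ∑ S ∈ P, (∑ a ∈ S, (x.filter p) a) ^ 2 +
      ∑ S ∈ Q, (∑ a ∈ S, (x.filter q) a) ^ 2 ≤ jn 𝒮 x ^ 2 := by
    intro P Q hP hQ
    simp only [sum_filter_apply]
    have h := fam (𝒮 := 𝒮) x (P.disjSum Q)
      (fun k => Sum.elim (fun S => S.filter p) (fun S => S.filter q) k) ?_ ?_
    · rw [sum_disjSum] at h
      exact h
    · intro k hk
      rcases mem_disjSum.1 hk with ⟨S, hS, rfl⟩ | ⟨S, hS, rfl⟩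
      · exact hp S (hP.1 S hS)
      · exact hq S (hQ.1 S hS)
    · intro k hk k' hk' hne
      rcases mem_disjSum.1 hk with ⟨S, hS, rfl⟩ | ⟨S, hS, rfl⟩ <;>
      rcases mem_disjSum.1 hk' with ⟨S', hS', rfl⟩ | ⟨S', hS', rfl⟩
      · exact (hP.2 S hS S' hS' fun h => hne (by rw [h])).mono (filter_subset _ _)
          (filter_subset _ _)
      · rw [disjoint_left]
        intro a ha ha'
        exact hpq a (mem_filter.1 ha).2 (mem_filter.1 ha').2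
      · rw [disjoint_left]
        intro a ha ha'
        exact hpq a (mem_filter.1 ha').2 (mem_filter.1 ha).2
      · exact (hQ.2 S hS S' hS' fun h => hne (by rw [h])).mono (filter_subset _ _)
          (filter_subset _ _)
  have h1 : ∀ Q, Adm 𝒮 Q → jn 𝒮 (x.filter p) ^ 2 ≤ jn 𝒮 x ^ 2 -
      ∑ S ∈ Q, (∑ a ∈ S, (x.filter q) a) ^ 2 := by
    intro Q hQ
    have h0 := key ∅ Q (adm_empty 𝒮) hQ
    rw [sum_empty, zero_add] at h0
    exact jn_sq_le (by linarith) fun P hP => by linarith [key P Q hP hQ]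
  have h2 : jn 𝒮 (x.filter q) ^ 2 ≤ jn 𝒮 x ^ 2 - jn 𝒮 (x.filter p) ^ 2 := by
    have h0 := h1 ∅ (adm_empty 𝒮)
    rw [sum_empty, sub_zero] at h0
    exact jn_sq_le (by linarith) fun Q hQ => by linarith [h1 Q hQ]
  linarith

/-! ### Normed space structure -/

/-- The finitely supported functions with the James type norm. -/
def JSp (_𝒮 : SegSys X) : Type := X →₀ ℝ

noncomputable instance : AddCommGroup (JSp 𝒮) := inferInstanceAs (AddCommGroup (X →₀ ℝ))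

noncomputable instance : Module ℝ (JSp 𝒮) := inferInstanceAs (Module ℝ (X →₀ ℝ))

noncomputable instance : Norm (JSp 𝒮) := ⟨fun x => jn 𝒮 x⟩

theorem JSp.core : NormedSpace.Core ℝ (JSp 𝒮) where
  norm_nonneg x := jn_nonneg x
  norm_smul c x := jn_smul c x
  norm_triangle x y := jn_add x y
  norm_eq_zero_iff x := by
    constructor
    · exact fun h => jn_eq_zero h
    · rintro rfl
      exact jn_zero

noncomputable instance : NormedAddCommGroup (JSp 𝒮) := NormedAddCommGroup.ofCore JSp.core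

noncomputable instance : NormedSpace ℝ (JSp 𝒮) := NormedSpace.ofCore JSp.core

theorem JSp.norm_def (x : JSp 𝒮) : ‖x‖ = jn 𝒮 x := rfl

end

end Pool.Agent.X205.JT
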