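import Pool.Agent.X205.JT.Maps

/-!
# The core theorem
-/

set_option autoImplicit false

namespace Pool.Agent.X205.JT

open Finset Filter Topology

/-! ### The embedding `J* → J_*` -/

section lam

/-- the all-zero branch -/
def σz : ℕ → Bool := fun _ => false

/-- a functional on `J` seen as a functional on the tree space -/
noncomputable def lift (g : (ℕ →₀ ℝ) →ₗ[ℝ] ℝ) : (List Bool →₀ ℝ) →ₗ[ℝ] ℝ := g ∘ₗ rs σz

theorem lift_le {g : (ℕ →₀ ℝ) →ₗ[ℝ] ℝ} {C : ℝ} (hC : 0 ≤ C)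
    (hg : ∀ x, |g x| ≤ C * jn natSys x) (x : List Bool →₀ ℝ) :
    |lift g x| ≤ C * jn treeSys x :=
  (hg _).trans (mul_le_mul_of_nonneg_left (jn_rs σz x) hC)

/-- the limit of the coordinates of a functional on `J` -/
noncomputable def Lm (g : (ℕ →₀ ℝ) →ₗ[ℝ] ℝ) : ℝ := th (lift g) σz

/-- the operator `J* → J_*` -/
noncomputable def Lam (g : (ℕ →₀ ℝ) →ₗ[ℝ] ℝ) : (ℕ →₀ ℝ) →ₗ[ℝ] ℝ :=
  g ∘ₗ shL + Lm g • (Finsupp.lapply 0 - ts 0 ∘ₗ shL)

theorem Lam_apply (g : (ℕ →₀ ℝ) →ₗ[ℝ] ℝ) (x : ℕ →₀ ℝ) :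
    Lam g x = g (shL x) + Lm g * (x 0 - ts 0 (shL x)) := rfl

theorem Lm_le {g : (ℕ →₀ ℝ) →ₗ[ℝ] ℝ} {C : ℝ} (hC : 0 ≤ C)
    (hg : ∀ x, |g x| ≤ C * jn natSys x) : |Lm g| ≤ C := th_le hC (lift_le hC hg) σz

theorem Lam_le {g : (ℕ →₀ ℝ) →ₗ[ℝ] ℝ} {C : ℝ} (hC : 0 ≤ C)
    (hg : ∀ x, |g x| ≤ C * jn natSys x) (x : ℕ →₀ ℝ) : |Lam g x| ≤ 3 * C * jn natSys x := by
  rw [Lam_apply]
  have h1 := jn_shL x
  have h2 : |g (shL x)| ≤ C * jn natSys x := (hg _).trans (mul_le_mul_of_nonneg_left h1 hC)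
  have h3 := Lm_le hC hg
  have h4 : |x 0 - ts 0 (shL x)| ≤ 2 * jn natSys x := by
    refine (abs_sub _ _).trans ?_
    have e1 := apply_le (𝒮 := natSys) x 0
    have e2 := (ts_le (shL x)).trans h1
    linarith
  refine (abs_add_le _ _).trans ?_
  rw [abs_mul]
  have h5 : |Lm g| * |x 0 - ts 0 (shL x)| ≤ C * (2 * jn natSys x) :=
    mul_le_mul h3 h4 (abs_nonneg _) hC
  linarith

/-- `Lam` is bounded below -/
theorem Lam_lower {g : (ℕ →₀ ℝ) →ₗ[ℝ] ℝ} {H : ℝ}
    (hH : 0 ≤ H) (h : ∀ x, |Lam g x| ≤ H * jn natSys x) (x : ℕ →₀ ℝ) :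
    |g x| ≤ 2 * H * jn natSys x := by
  have h1 : Lam g (shR x) = g x - Lm g * ts 0 x := by
    rw [Lam_apply, shL_shR, shR_zero]
    ring
  have h2 : Lam g (Finsupp.single 0 1) = Lm g := by
    have e1 : shL (Finsupp.single 0 1) = 0 := by
      ext n
      rw [shL_apply, Finsupp.single_apply, if_neg (by omega)]
      rfl
    rw [Lam_apply, e1, map_zero g, map_zero (ts 0), Finsupp.single_eq_same]
    ring
  have h3 : |Lm g| ≤ H := by
    rw [← h2]
    refine (h _).trans ?_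
    have := jn_single_le (𝒮 := natSys) 0 (1 : ℝ)
    rw [abs_one] at this
    nlinarith
  have h4 : g x = Lam g (shR x) + Lm g * ts 0 x := by rw [h1]; ring
  rw [h4]
  refine (abs_add_le _ _).trans ?_
  rw [abs_mul]
  have h5 := (h (shR x)).trans (mul_le_mul_of_nonneg_left (jn_shR x) hH)
  have h6 : |Lm g| * |ts 0 x| ≤ H * jn natSys x := mul_le_mul h3 (ts_le x) (abs_nonneg _) hH
  linarith

/-- `Lam g` is small on tails -/
theorem Lam_tail {g : (ℕ →₀ ℝ) →ₗ[ℝ] ℝ} {C : ℝ} (hC : 0 ≤ C)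
    (hg : ∀ x, |g x| ≤ C * jn natSys x) {η : ℝ} (hη : 0 < η) :
    ∃ N : ℕ, ∀ x : ℕ →₀ ℝ, (∀ n ∈ x.support, N ≤ n) → |Lam g x| ≤ η * jn natSys x := by
  obtain ⟨n, hn⟩ := atom (lift_le hC hg) σz hη
  refine ⟨n + 1, fun x hx => ?_⟩
  have hx0 : x 0 = 0 := by
    by_contra hne
    have := hx 0 (Finsupp.mem_support_iff.2 hne)
    omega
  have h1 : Lam g x = g (shL x) - Lm g * ts 0 (shL x) := by
    rw [Lam_apply, hx0]
    ring
  have h2 := hn (emb σz id (shL x)) (by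
    intro β hβ
    rw [emb_apply] at hβ
    obtain ⟨j, hj, rfl⟩ := mem_image.1 (Finsupp.mapDomain_support hβ)
    apply res_prefix
    rw [Finsupp.mem_support_iff, shL_apply] at hj
    have := hx (j + 1) (Finsupp.mem_support_iff.2 hj)
    simp only [id]
    omega)
  rw [bf_emb_zero] at h2
  have h3 : lift g (emb σz id (shL x)) = g (shL x) := by
    unfold lift
    rw [LinearMap.comp_apply, rs_emb]
  rw [h3] at h2
  rw [h1]
  refine h2.trans (mul_le_mul_of_nonneg_left ?_ hη.le)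
  exact (jn_emb σz strictMono_id _).trans (jn_shL x)

theorem Lam_add {g h : (ℕ →₀ ℝ) →ₗ[ℝ] ℝ} {C D : ℝ} (hC : 0 ≤ C) (hD : 0 ≤ D)
    (hg : ∀ x, |g x| ≤ C * jn natSys x) (hh : ∀ x, |h x| ≤ D * jn natSys x) :
    Lam (g + h) = Lam g + Lam h := by
  have h1 : Lm (g + h) = Lm g + Lm h := th_add (lift_le hC hg) (lift_le hD hh) σz
  apply LinearMap.ext
  intro x
  rw [LinearMap.add_apply, Lam_apply, Lam_apply, Lam_apply, h1, LinearMap.add_apply]
  ring

theorem Lam_smul {g : (ℕ →₀ ℝ) →ₗ[ℝ] ℝ} {C : ℝ} (hC : 0 ≤ C)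
    (hg : ∀ x, |g x| ≤ C * jn natSys x) (c : ℝ) : Lam (c • g) = c • Lam g := by
  have h1 : Lm (c • g) = c * Lm g := th_smul (lift_le hC hg) c σz
  apply LinearMap.ext
  intro x
  rw [LinearMap.smul_apply, Lam_apply, Lam_apply, h1, LinearMap.smul_apply, smul_eq_mul,
    smul_eq_mul]
  ring

end lam

theorem sum_Icc_tele (z : ℕ → ℝ) {a b : ℕ} (hab : a ≤ b) :
    ∑ i ∈ Icc a b, (z i - z (i + 1)) = z a - z (b + 1) := by
  induction b, hab using Nat.le_induction with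
  | base => rw [Icc_self, sum_singleton]
  | succ b hab ih =>
    rw [Finset.sum_Icc_succ_top (by omega), ih]
    ring

section core

variable {W : Type} [NormedAddCommGroup W] [NormedSpace ℝ W]
  {R : W →ₗᵢ[ℝ] StrongDual ℝ (JSp treeSys)} {Ψ : StrongDual ℝ (StrongDual ℝ W)}

theorem geom_bound {c : ℝ} (hc : 0 ≤ c) (N : ℕ) : ∑ i ∈ range N, c * (1 / 2 : ℝ) ^ i ≤ 2 * c := by
  rw [← mul_sum]
  have := mul_le_mul_of_nonneg_left (sum_geometric_two_le N) hc
  linarith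

theorem geom_bound_sq (c : ℝ) (N : ℕ) :
    ∑ i ∈ range N, (c * (1 / 2 : ℝ) ^ i) ^ 2 ≤ 2 * c ^ 2 := by
  have h1 : ∀ i ∈ range N, (c * (1 / 2 : ℝ) ^ i) ^ 2 ≤ c ^ 2 * (1 / 2 : ℝ) ^ i := by
    intro i _
    rw [mul_pow]
    apply mul_le_mul_of_nonneg_left _ (sq_nonneg c)
    have h2 : (1 / 2 : ℝ) ^ i ≤ 1 := pow_le_one₀ (by norm_num) (by norm_num)
    have h3 : 0 ≤ (1 / 2 : ℝ) ^ i := by positivity
    nlinarith
  refine (sum_le_sum h1).trans ?_
  exact geom_bound (sq_nonneg c) N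

/-- If all defects vanish, the element of the bidual comes from `W`. -/
theorem rep_of_tt_zero [CompleteSpace W] (htt : ∀ σ, tt R Ψ σ = 0) :
    ∃ w : W, ∀ f : StrongDual ℝ W, f w = Ψ f := by
  set Y0 : StrongDual ℝ (JSp treeSys) := toDual (y0 R Ψ) ‖Ψ‖ (y0_le R Ψ) with hY0
  set C : ℝ := 3 * ((2 * ‖Ψ‖ + 1) ^ 2 + 2 * 1 ^ 2 + (2 * (2 * ‖Ψ‖ + 1) ^ 2 + 2 * (2 * ‖Ψ‖) ^ 2))
    with hC
  have hC0 : 0 ≤ C := by positivity
  have key : ∀ f : StrongDual ℝ W, ∃ a : ℕ → W, Tendsto (fun N => R (a N)) atTop (𝓝 Y0) ∧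
      ∀ N, f (a (N + 1)) = Ψ f := by
    intro f
    obtain ⟨s⟩ := exists_appSeq R Ψ f ∅ (fun i => 1 * (1 / 2 : ℝ) ^ i) fun i => by positivity
    have hB : ∀ i x, s.B i x = 0 := by
      intro i x
      unfold AppSeq.B
      apply Finset.sum_eq_zero
      intro σ _
      rw [htt, zero_mul]
    have hup := s.upA (fun i => by positivity) (fun N => geom_bound_sq 1 N)
    have hup' : ∀ (N : ℕ) (x : List Bool →₀ ℝ),
        |∑ i ∈ range N, s.zz i x| ≤ √(C * N) * jn treeSys x := by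
      intro N x
      have h1 := hup x N
      simp only [hB, sub_zero] at h1
      have h2 := sum_mul_sq_le_sq_mul_sq (range N) (fun _ => (1 : ℝ)) (fun i => s.zz i x)
      simp only [one_mul, one_pow, sum_const, card_range, nsmul_eq_mul, mul_one] at h2
      apply abs_le_of_sq_le_sq _ (mul_nonneg (Real.sqrt_nonneg _) (jn_nonneg x))
      rw [mul_pow, Real.sq_sqrt (by positivity)]
      have hN : (0 : ℝ) ≤ N := Nat.cast_nonneg N
      calc (∑ i ∈ range N, s.zz i x) ^ 2 ≤ N * ∑ i ∈ range N, s.zz i x ^ 2 := h2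
        _ ≤ N * (C * jn treeSys x ^ 2) := mul_le_mul_of_nonneg_left h1 hN
        _ = _ := by ring
    refine ⟨fun N => (N : ℝ)⁻¹ • ∑ i ∈ range N, s.y i, ?_, ?_⟩
    · rw [tendsto_iff_norm_sub_tendsto_zero]
      have hbound : ∀ N : ℕ, 1 ≤ N →
          ‖R ((N : ℝ)⁻¹ • ∑ i ∈ range N, s.y i) - Y0‖ ≤ √(C / N) := by
        intro N hN
        have hNpos : (0 : ℝ) < N := by exact_mod_cast hN
        apply norm_le_of _ (Real.sqrt_nonneg _)
        intro x
        have h1 : ofDual (R ((N : ℝ)⁻¹ • ∑ i ∈ range N, s.y i) - Y0) x =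
            (N : ℝ)⁻¹ * ∑ i ∈ range N, s.zz i x := by
          have e1 : ofDual (R ((N : ℝ)⁻¹ • ∑ i ∈ range N, s.y i) - Y0) x =
              ofDual (R ((N : ℝ)⁻¹ • ∑ i ∈ range N, s.y i)) x - y0 R Ψ x := rfl
          have e2 : ofDual (R ((N : ℝ)⁻¹ • ∑ i ∈ range N, s.y i)) x =
              (N : ℝ)⁻¹ * ∑ i ∈ range N, ofDual (R (s.y i)) x := by
            have e3 : evR R x ((N : ℝ)⁻¹ • ∑ i ∈ range N, s.y i) =
                (N : ℝ)⁻¹ * ∑ i ∈ range N, evR R x (s.y i) := by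
              rw [map_smul, map_sum, smul_eq_mul]
            exact e3
          have e4 : ∀ i, s.zz i x = ofDual (R (s.y i)) x - y0 R Ψ x := fun i => rfl
          simp only [e4]
          rw [e1, e2, sum_sub_distrib, sum_const, card_range, nsmul_eq_mul, mul_sub]
          field_simp
        rw [h1, abs_mul, abs_inv, abs_of_pos hNpos]
        have h2 := hup' N x
        have h3 : √(C * N) = N * √(C / N) := by
          have : C * N = N ^ 2 * (C / N) := by field_simp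
          rw [this, Real.sqrt_mul (by positivity), Real.sqrt_sq hNpos.le]
        rw [h3] at h2
        calc (N : ℝ)⁻¹ * |∑ i ∈ range N, s.zz i x|
            ≤ (N : ℝ)⁻¹ * (N * √(C / N) * jn treeSys x) :=
              mul_le_mul_of_nonneg_left h2 (inv_nonneg.2 hNpos.le)
          _ = √(C / N) * jn treeSys x := by field_simp
      have hlim : Tendsto (fun N : ℕ => √(C / N)) atTop (𝓝 0) := by
        have h1 : Tendsto (fun N : ℕ => C / (N : ℝ)) atTop (𝓝 0) :=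
          tendsto_const_div_atTop_nhds_zero_nat C
        have h2 := (Real.continuous_sqrt.tendsto 0).comp h1
        rw [Real.sqrt_zero] at h2
        exact h2
      refine squeeze_zero' (Eventually.of_forall fun N => norm_nonneg _) ?_ hlim
      filter_upwards [eventually_ge_atTop 1] with N hN
      exact hbound N hN
    · intro N
      have hNpos : (0 : ℝ) < ((N + 1 : ℕ) : ℝ) := by positivity
      rw [map_smul, map_sum, sum_congr rfl fun i _ => s.f_y i, sum_const, card_range,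
        nsmul_eq_mul, smul_eq_mul, ← mul_assoc, inv_mul_cancel₀ hNpos.ne', one_mul]
  -- `Y0` is in the range
  have hclosed : IsClosed (Set.range R) := R.isometry.isClosedEmbedding.isClosed_range
  obtain ⟨w, hw⟩ : Y0 ∈ Set.range R := by
    obtain ⟨a, ha, -⟩ := key 0
    exact hclosed.mem_of_tendsto ha (Eventually.of_forall fun N => ⟨a N, rfl⟩)
  refine ⟨w, fun f => ?_⟩
  obtain ⟨a, ha, haf⟩ := key f
  rw [← hw] at ha
  have haw : Tendsto a atTop (𝓝 w) := (R.isometry.isEmbedding.tendsto_nhds_iff).2 ha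
  have h1 : Tendsto (fun N => f (a (N + 1))) atTop (𝓝 (f w)) :=
    ((f.continuous.tendsto w).comp haw).comp (tendsto_add_atTop_nat 1)
  simp only [haf] at h1
  exact tendsto_nhds_unique h1 tendsto_const_nhds

end core

end Pool.Agent.X205.JT
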