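import Pool.Agent.X205.JT.Main

/-!
# Passing to the completions
-/

set_option autoImplicit false

namespace Pool.Agent.X205.JT

open UniformSpace

section

variable {E : Type} [NormedAddCommGroup E] [NormedSpace ℝ E]

/-- restriction of functionals from the completion -/
noncomputable def resC : StrongDual ℝ (Completion E) →ₗᵢ[ℝ] StrongDual ℝ E where
  toFun g := g.comp Completion.toComplL
  map_add' g h := rfl
  map_smul' c g := rfl
  norm_map' g := by
    change ‖g.comp Completion.toComplL‖ = ‖g‖
    apply le_antisymm
    · apply ContinuousLinearMap.opNorm_le_bound _ (norm_nonneg g)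
      intro x
      have h := g.le_opNorm (x : Completion E)
      rw [Completion.norm_coe] at h
      exact h
    · apply ContinuousLinearMap.opNorm_le_bound _ (norm_nonneg _)
      intro x
      induction x using Completion.induction_on with
      | hp =>
        exact isClosed_le (g.continuous.norm) (continuous_const.mul continuous_norm)
      | ih a =>
        have h := (g.comp Completion.toComplL).le_opNorm a
        rw [Completion.norm_coe]
        exact h

end

/-- From a bounded below operator to an isomorphic copy. -/
theorem copy_of_lower {D X : Type} [NormedAddCommGroup D] [NormedSpace ℝ D] [CompleteSpace D]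
    [NormedAddCommGroup X] [NormedSpace ℝ X] (A : D →L[ℝ] X) {c : ℝ} (hc : 0 < c)
    (h : ∀ g, c * ‖g‖ ≤ ‖A g‖) :
    IsClosed (Set.range A) ∧ Nonempty (D ≃L[ℝ] (LinearMap.range (A : D →ₗ[ℝ] X))) := by
  have hinj : Function.Injective (A : D →ₗ[ℝ] X) := by
    intro g g' hgg
    have h1 := h (g - g')
    have h2 : A (g - g') = 0 := by
      rw [map_sub]
      exact sub_eq_zero.2 hgg
    rw [h2, norm_zero] at h1
    have h3 : ‖g - g'‖ = 0 := by
      have := norm_nonneg (g - g')
      nlinarith
    exact sub_eq_zero.1 (norm_eq_zero.1 h3)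
  constructor
  · have hanti : AntilipschitzWith (⟨1 / c, by positivity⟩ : NNReal) A := by
      apply ContinuousLinearMap.antilipschitz_of_bound
      intro x
      change ‖x‖ ≤ 1 / c * ‖A x‖
      rw [one_div, ← div_eq_inv_mul, le_div_iff₀ hc]
      linarith [h x]
    exact hanti.isClosed_range A.uniformContinuous
  · refine ⟨(LinearEquiv.ofInjective (A : D →ₗ[ℝ] X) hinj).toContinuousLinearEquivOfBounds
      ‖A‖ (1 / c) (fun x => A.le_opNorm x) fun x => ?_⟩
    obtain ⟨g, rfl⟩ := (LinearEquiv.ofInjective (A : D →ₗ[ℝ] X) hinj).surjective x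
    rw [LinearEquiv.symm_apply_apply]
    change ‖g‖ ≤ 1 / c * ‖A g‖
    rw [one_div, ← div_eq_inv_mul, le_div_iff₀ hc]
    linarith [h g]

end Pool.Agent.X205.JT
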