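import Pool.Agent.X205.JT.Core

/-!
# Nonreflexive spaces embedded in the dual of the James tree space contain `J*`
-/

set_option autoImplicit false

namespace Pool.Agent.X205.JT

open Finset Filter Topology

section core

variable {W : Type} [NormedAddCommGroup W] [NormedSpace ℝ W]
  {R : W →ₗᵢ[ℝ] StrongDual ℝ (JSp treeSys)} {Ψ : StrongDual ℝ (StrongDual ℝ W)}
  {f : StrongDual ℝ W} {F₀ : Finset (ℕ → Bool)} {e : ℕ → ℝ} (s : AppSeq R Ψ f F₀ e)

namespace AppSeq

theorem zz_zero {i : ℕ} {x : List Bool →₀ ℝ} {L : ℕ} (hx : ∀ β ∈ x.support, β.length ≤ L)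
    (hi : L ≤ i) : s.zz i x = 0 :=
  s.zero i x fun β hβ => (hx β hβ).trans (hi.trans (s.le_m i))

theorem finite_uu (x : List Bool →₀ ℝ) :
    (Function.support fun i => s.zz i x - s.zz (i + 1) x).Finite := by
  obtain ⟨L, hL⟩ := exists_level x
  apply (Set.finite_lt_nat L).subset
  intro i hi
  by_contra hge
  have hge' : L ≤ i := not_lt.1 hge
  apply hi
  change s.zz i x - s.zz (i + 1) x = 0
  rw [s.zz_zero hL hge', s.zz_zero hL (hge'.trans (Nat.le_succ i)), sub_zero]

/-- the operator from the tree space to `J` -/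
noncomputable def U : (List Bool →₀ ℝ) →ₗ[ℝ] (ℕ →₀ ℝ) where
  toFun x := Finsupp.ofSupportFinite (fun i => s.zz i x - s.zz (i + 1) x) (s.finite_uu x)
  map_add' x y := by
    ext i
    change s.zz i (x + y) - s.zz (i + 1) (x + y) = (s.zz i x - s.zz (i + 1) x) +
      (s.zz i y - s.zz (i + 1) y)
    rw [map_add, map_add]
    ring
  map_smul' c x := by
    ext i
    change s.zz i (c • x) - s.zz (i + 1) (c • x) = c * (s.zz i x - s.zz (i + 1) x)
    rw [map_smul, map_smul, smul_eq_mul, smul_eq_mul]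
    ring

theorem U_apply (x : List Bool →₀ ℝ) (i : ℕ) : s.U x i = s.zz i x - s.zz (i + 1) x := rfl

/-- the upper estimate for `U` -/
theorem U_le (he : ∀ i, 0 ≤ e i) {E : ℝ} (hE : ∀ N, ∑ i ∈ range N, e i ^ 2 ≤ E) :
    ∃ C, 0 ≤ C ∧ ∀ x, jn natSys (s.U x) ≤ C * jn treeSys x := by
  obtain ⟨C, hC, hup⟩ := s.up he hE
  refine ⟨√C, Real.sqrt_nonneg _, fun x => ?_⟩
  apply jn_le (mul_nonneg (Real.sqrt_nonneg _) (jn_nonneg x))
  intro P hP
  rw [mul_pow, Real.sq_sqrt hC]
  have hch : ∀ I : Finset ℕ, ∃ a b : ℕ, I ∈ P → a ≤ b ∧ I = Icc a b := by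
    intro I
    by_cases hI : I ∈ P
    · obtain ⟨a, b, hab, hIe⟩ := hP.1 I hI
      exact ⟨a, b, fun _ => ⟨hab, hIe⟩⟩
    · exact ⟨0, 0, fun h => absurd h hI⟩
  choose a b hab using hch
  have h1 := hup P a (fun I => b I + 1) (fun I hI => Nat.lt_succ_of_le (hab I hI).1) (by
    intro I hI I' hI' hne
    have e1 := hab I hI
    have e2 := hab I' hI'
    by_contra hcon
    push Not at hcon
    have hd := hP.2 I hI I' hI' hne
    rw [disjoint_left] at hd
    have k1 : ∀ k, a I ≤ k → k ≤ b I → k ∈ I := fun k h1 h2 => by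
      have : k ∈ Icc (a I) (b I) := mem_Icc.2 ⟨h1, h2⟩
      rwa [← e1.2] at this
    have k2 : ∀ k, a I' ≤ k → k ≤ b I' → k ∈ I' := fun k h1 h2 => by
      have : k ∈ Icc (a I') (b I') := mem_Icc.2 ⟨h1, h2⟩
      rwa [← e2.2] at this
    have e3 := e1.1
    have e4 := e2.1
    exact hd (k1 (max (a I) (a I')) (by omega) (by omega))
      (k2 (max (a I) (a I')) (by omega) (by omega))) x
  refine le_trans (le_of_eq ?_) h1
  refine sum_congr rfl fun I hI => ?_
  congr 1
  have e1 := hab I hI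
  rw [← sum_Icc_tele (fun i => s.zz i x) e1.1, ← e1.2]
  exact sum_congr rfl fun i _ => s.U_apply x i

/-- the strictly increasing levels -/
theorem l_mono : StrictMono (fun j => s.n j + 1) := by
  intro i j hij
  have h1 := s.n_lt hij
  have h2 := s.m_le j
  change s.n i + 1 < s.n j + 1
  omega

theorem zz_emb {σ₁ : ℕ → Bool} (hσ : σ₁ ∈ s.G 0) (he : ∀ i, 0 ≤ e i) (i : ℕ) (x : ℕ →₀ ℝ) :
    |s.zz i (emb σ₁ (fun j => s.n j + 1) x) - tt R Ψ σ₁ * ts i x| ≤ e i * jn natSys x := by
  classical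
  set w := emb σ₁ (fun j => s.n j + 1) x with hw
  have hdec := s.decomp i w
  have h1 : s.band i w = 0 := by
    ext β
    unfold band
    rw [Finsupp.filter_apply]
    split_ifs with hβ
    · rw [hw, emb_apply]
      apply Finsupp.mapDomain_of_notMem_range
      rintro ⟨j, rfl⟩
      simp only [length_res] at hβ
      rcases lt_or_ge j i with hj | hj
      · have := s.n_lt hj
        omega
      · have := s.n_mono hj
        omega
    · rfl
  have hσi : σ₁ ∈ s.G i := s.G_mono (Nat.zero_le i) hσ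
  have hne : ∀ τ ∈ s.G (i + 1), τ ≠ σ₁ → bf τ (s.n i + 1) w = 0 := by
    intro τ hτ hne
    exact bf_emb_ne (s.sep i τ hτ σ₁ (s.G_sub i hσi) hne) x
  have h2 : s.B i w = tt R Ψ σ₁ * ts i x := by
    unfold B
    rw [sum_eq_single_of_mem σ₁ (s.G_sub i hσi) fun τ hτ hτne => by
      rw [hne τ hτ hτne, mul_zero]]
    rw [hw, bf_emb_self σ₁ s.l_mono i x]
  have h3 : s.Vv i w = 0 := by
    unfold Vv
    apply Finset.sum_eq_zero
    intro τ hτ
    have hτ1 := (Finset.mem_sdiff.1 hτ)
    rw [hne τ hτ1.1 (fun h => hτ1.2 (h ▸ hσi)), mul_zero]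
  rw [h1, map_zero, h2, h3] at hdec
  have h4 : s.zz i w - tt R Ψ σ₁ * ts i x = s.rr i w := by rw [hdec]; ring
  rw [h4]
  exact (s.rr_le i w he).trans (mul_le_mul_of_nonneg_left (jn_emb σ₁ s.l_mono x) (he i))

theorem U_emb {σ₁ : ℕ → Bool} (hσ : σ₁ ∈ s.G 0) (he : ∀ i, 0 ≤ e i)
    {c : ℝ} (hE : ∀ N, ∑ i ∈ range N, e i ≤ c) (hdec : ∀ i, e (i + 1) ≤ e i) (x : ℕ →₀ ℝ) :
    jn natSys (s.U (emb σ₁ (fun j => s.n j + 1) x) - tt R Ψ σ₁ • x) ≤
      2 * c * jn natSys x := by
  set v := s.U (emb σ₁ (fun j => s.n j + 1) x) - tt R Ψ σ₁ • x with hv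
  have h1 : ∀ i, |v i| ≤ 2 * e i * jn natSys x := by
    intro i
    have e1 : v i = (s.zz i (emb σ₁ (fun j => s.n j + 1) x) - tt R Ψ σ₁ * ts i x) -
        (s.zz (i + 1) (emb σ₁ (fun j => s.n j + 1) x) - tt R Ψ σ₁ * ts (i + 1) x) := by
      have e2 : v i = (s.zz i (emb σ₁ (fun j => s.n j + 1) x) -
          s.zz (i + 1) (emb σ₁ (fun j => s.n j + 1) x)) - tt R Ψ σ₁ * x i := rfl
      rw [e2, ← ts_diff i x]
      ring
    rw [e1]
    refine (abs_sub _ _).trans ?_
    have e3 := s.zz_emb hσ he i x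
    have e4 := s.zz_emb hσ he (i + 1) x
    have e5 := hdec i
    have e6 := jn_nonneg (𝒮 := natSys) x
    nlinarith
  refine (jn_le_l1 v).trans ?_
  refine (sum_le_sum fun i _ => h1 i).trans ?_
  rw [← sum_mul, ← mul_sum]
  apply mul_le_mul_of_nonneg_right _ (jn_nonneg x)
  apply mul_le_mul_of_nonneg_left _ (by norm_num)
  have hsub : v.support ⊆ range (v.support.sup id + 1) := by
    intro i hi
    rw [mem_range]
    have := le_sup (f := id) hi
    simp only [id] at this
    omega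
  exact (sum_le_sum_of_subset_of_nonneg hsub fun i _ _ => he i).trans (hE _)

end AppSeq

/-- **Core theorem.** -/
theorem core [CompleteSpace W] (R : W →ₗᵢ[ℝ] StrongDual ℝ (JSp treeSys))
    (Ψ : StrongDual ℝ (StrongDual ℝ W)) (hΨ : ¬ ∃ w : W, ∀ f : StrongDual ℝ W, f w = Ψ f) :
    ∃ (Φ : StrongDual ℝ (JSp natSys) →L[ℝ] W) (c : ℝ), 0 < c ∧ ∀ g, c * ‖g‖ ≤ ‖Φ g‖ := by
  obtain ⟨σ₁, hσ₁⟩ : ∃ σ, tt R Ψ σ ≠ 0 := by
    by_contra hcon
    push Not at hcon
    exact hΨ (rep_of_tt_zero hcon)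
  set t := tt R Ψ σ₁ with ht
  have htpos : 0 < |t| := abs_pos.2 hσ₁
  set e : ℕ → ℝ := fun i => |t| / 16 * (1 / 2 : ℝ) ^ i with he
  have hepos : ∀ i, 0 < e i := fun i => by rw [he]; positivity
  obtain ⟨s⟩ := exists_appSeq R Ψ 0 {σ₁} e hepos
  have hσG : σ₁ ∈ s.G 0 := by rw [s.G0]; exact mem_singleton_self _
  obtain ⟨C, hC, hU⟩ := s.U_le (fun i => (hepos i).le) (fun N => geom_bound_sq (|t| / 16) N)
  have hE1 : ∀ N, ∑ i ∈ range N, e i ≤ |t| / 8 := by
    intro N
    refine (geom_bound (by positivity) N).trans (le_of_eq ?_)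
    ring
  have hdec : ∀ i, e (i + 1) ≤ e i := by
    intro i
    simp only [he, pow_succ]
    have : 0 ≤ |t| / 16 * (1 / 2 : ℝ) ^ i := by positivity
    nlinarith
  have hUV := s.U_emb hσG (fun i => (hepos i).le) hE1 hdec
  -- the functional on the tree space
  have hcomp : ∀ g : StrongDual ℝ (JSp natSys), ∀ x, |Lam (ofDual g) (s.U x)| ≤
      3 * ‖g‖ * C * jn treeSys x := by
    intro g x
    refine (Lam_le (norm_nonneg g) (ofDual_le g) (s.U x)).trans ?_
    have := mul_le_mul_of_nonneg_left (hU x) (by positivity : 0 ≤ 3 * ‖g‖)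
    linarith
  have hclosed : IsClosed (Set.range R) := R.isometry.isClosedEmbedding.isClosed_range
  have hex : ∀ g : StrongDual ℝ (JSp natSys), ∃ w : W, ∀ x, ofDual (R w) x =
      Lam (ofDual g) (s.U x) := by
    intro g
    set A : StrongDual ℝ (JSp treeSys) := toDual (Lam (ofDual g) ∘ₗ s.U) (3 * ‖g‖ * C)
      (hcomp g) with hA
    have hAx : ∀ x, ofDual A x = Lam (ofDual g) (s.U x) := fun x => rfl
    suffices hmem : A ∈ Set.range R by
      obtain ⟨w, hw⟩ := hmem
      exact ⟨w, fun x => by rw [hw, hAx]⟩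
    -- approximations
    rw [← hclosed.closure_eq, Metric.mem_closure_iff]
    intro δ hδ
    have hη : 0 < δ / (2 * (C + 1)) := by positivity
    obtain ⟨N, hN⟩ := Lam_tail (norm_nonneg g) (ofDual_le g) hη
    refine ⟨R (∑ i ∈ range N, Lam (ofDual g) (Finsupp.single i 1) • (s.y i - s.y (i + 1))),
      ⟨_, rfl⟩, ?_⟩
    rw [dist_eq_norm]
    refine lt_of_le_of_lt (norm_le_of (C := δ / 2) _ (by positivity) ?_) (by linarith)
    intro x
    have h1 : ofDual (A - R (∑ i ∈ range N, Lam (ofDual g) (Finsupp.single i 1) •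
        (s.y i - s.y (i + 1)))) x = Lam (ofDual g) (s.U x) -
        ∑ i ∈ range N, Lam (ofDual g) (Finsupp.single i 1) * s.U x i := by
      have e1 : ofDual (R (∑ i ∈ range N, Lam (ofDual g) (Finsupp.single i 1) •
          (s.y i - s.y (i + 1)))) x =
          ∑ i ∈ range N, Lam (ofDual g) (Finsupp.single i 1) * s.U x i := by
        have e2 : evR R x (∑ i ∈ range N, Lam (ofDual g) (Finsupp.single i 1) •
            (s.y i - s.y (i + 1))) =
            ∑ i ∈ range N, Lam (ofDual g) (Finsupp.single i 1) *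
              (evR R x (s.y i) - evR R x (s.y (i + 1))) := by
          rw [map_sum]
          refine sum_congr rfl fun i _ => ?_
          rw [map_smul, map_sub, smul_eq_mul]
        refine e2.trans (sum_congr rfl fun i _ => ?_)
        congr 1
        change ofDual (R (s.y i)) x - ofDual (R (s.y (i + 1))) x =
          (ofDual (R (s.y i)) x - y0 R Ψ x) - (ofDual (R (s.y (i + 1))) x - y0 R Ψ x)
        ring
      change ofDual A x - ofDual (R _) x = _
      rw [e1, hAx]
    have h2 : Lam (ofDual g) (s.U x) - ∑ i ∈ range N, Lam (ofDual g) (Finsupp.single i 1) *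
        s.U x i = Lam (ofDual g) ((s.U x).filter (fun n => N ≤ n)) := by
      have e1 : s.U x = (s.U x).filter (fun n => N ≤ n) +
          ∑ i ∈ range N, (s.U x i) • Finsupp.single i (1 : ℝ) := by
        ext n
        rw [Finsupp.add_apply, Finsupp.coe_finsetSum, Finset.sum_apply, Finsupp.filter_apply]
        simp only [Finsupp.smul_apply, Finsupp.single_apply, smul_eq_mul, mul_ite, mul_one,
          mul_zero]
        rw [sum_ite_eq']
        by_cases hn : N ≤ n
        · rw [if_pos hn, if_neg (by rw [mem_range]; omega), add_zero]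
        · rw [if_neg hn, if_pos (by rw [mem_range]; omega), zero_add]
      have e2 : Lam (ofDual g) (s.U x) = Lam (ofDual g) ((s.U x).filter (fun n => N ≤ n)) +
          ∑ i ∈ range N, s.U x i * Lam (ofDual g) (Finsupp.single i 1) := by
        conv_lhs => rw [e1]
        rw [map_add, map_sum]
        congr 1
        exact sum_congr rfl fun i _ => by rw [map_smul, smul_eq_mul]
      rw [e2]
      have e3 : ∑ i ∈ range N, s.U x i * Lam (ofDual g) (Finsupp.single i 1) =
          ∑ i ∈ range N, Lam (ofDual g) (Finsupp.single i 1) * s.U x i :=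
        sum_congr rfl fun i _ => mul_comm _ _
      rw [e3]
      ring
    rw [h1, h2]
    have h3 := hN ((s.U x).filter (fun n => N ≤ n)) (by
      intro n hn
      rw [Finsupp.support_filter, mem_filter] at hn
      exact hn.2)
    have h4 : jn natSys ((s.U x).filter (fun n => N ≤ n)) ≤ jn natSys (s.U x) := by
      apply jn_filter
      rintro S ⟨a, b, hab, rfl⟩
      apply natSys_of_conn
      intro p hp q hq r h5 h6
      rw [mem_filter, mem_Icc] at *
      omega
    have h5 := hU x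
    have h6 := jn_nonneg (𝒮 := treeSys) x
    calc |Lam (ofDual g) ((s.U x).filter (fun n => N ≤ n))|
        ≤ δ / (2 * (C + 1)) * jn natSys ((s.U x).filter (fun n => N ≤ n)) := h3
      _ ≤ δ / (2 * (C + 1)) * (C * jn treeSys x) :=
          mul_le_mul_of_nonneg_left (h4.trans h5) hη.le
      _ ≤ δ / (2 * (C + 1)) * ((C + 1) * jn treeSys x) :=
          mul_le_mul_of_nonneg_left (by nlinarith) hη.le
      _ = δ / 2 * jn treeSys x := by
          field_simp
  choose φ hφ using hex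
  have hinj : ∀ v w : W, (∀ x, ofDual (R v) x = ofDual (R w) x) → v = w := by
    intro v w hvw
    apply R.injective
    apply ofDual_injective
    exact LinearMap.ext hvw
  have hevadd : ∀ v w : W, ∀ x, ofDual (R (v + w)) x = ofDual (R v) x + ofDual (R w) x :=
    fun v w x => map_add (evR R x) v w
  have hevsmul : ∀ (c : ℝ) (w : W), ∀ x, ofDual (R (c • w)) x = c * ofDual (R w) x :=
    fun c w x => map_smul (evR R x) c w
  let Φ₀ : StrongDual ℝ (JSp natSys) →ₗ[ℝ] W :=
    { toFun := φ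
      map_add' := by
        intro g h
        apply hinj
        intro x
        rw [hevadd, hφ, hφ, hφ]
        have : ofDual (g + h) = ofDual g + ofDual h := rfl
        rw [this, Lam_add (norm_nonneg g) (norm_nonneg h) (ofDual_le g) (ofDual_le h)]
        rfl
      map_smul' := by
        intro c g
        apply hinj
        intro x
        rw [RingHom.id_apply, hevsmul, hφ, hφ]
        have : ofDual (c • g) = c • ofDual g := rfl
        rw [this, Lam_smul (norm_nonneg g) (ofDual_le g)]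
        rfl }
  have hΦn : ∀ g, ‖Φ₀ g‖ ≤ (3 * C) * ‖g‖ := by
    intro g
    rw [← R.norm_map]
    apply norm_le_of _ (by positivity)
    intro x
    have h1 : ofDual (R (Φ₀ g)) x = Lam (ofDual g) (s.U x) := hφ g x
    rw [h1]
    have := hcomp g x
    linarith
  refine ⟨Φ₀.mkContinuous (3 * C) hΦn, 3 * |t| / 8, by positivity, fun g => ?_⟩
  change 3 * |t| / 8 * ‖g‖ ≤ ‖Φ₀ g‖
  -- the norm of the functional `Lam g`
  set h : StrongDual ℝ (JSp natSys) := toDual (Lam (ofDual g)) (3 * ‖g‖)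
    (Lam_le (norm_nonneg g) (ofDual_le g)) with hh
  have hhx : ∀ x, ofDual h x = Lam (ofDual g) x := fun x => rfl
  have h1 : ∀ x, |Lam (ofDual g) x| ≤ ‖h‖ * jn natSys x := fun x => by
    rw [← hhx]; exact ofDual_le h x
  have h2 : ‖g‖ ≤ 2 * ‖h‖ := norm_le_of g (by positivity) (Lam_lower (norm_nonneg h) h1)
  have h3 : ‖h‖ ≤ (‖Φ₀ g‖ + |t| / 4 * ‖h‖) / |t| := by
    apply norm_le_of h (by positivity)
    intro x
    rw [hhx]
    set w := emb σ₁ (fun j => s.n j + 1) x with hw
    have e1 : t * Lam (ofDual g) x = Lam (ofDual g) (s.U w) -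
        Lam (ofDual g) (s.U w - t • x) := by
      rw [map_sub, map_smul, smul_eq_mul]
      ring
    have e2 : |Lam (ofDual g) (s.U w)| ≤ ‖Φ₀ g‖ * jn natSys x := by
      have e3 : Lam (ofDual g) (s.U w) = ofDual (R (Φ₀ g)) w := (hφ g w).symm
      rw [e3]
      exact (fn_le R (Φ₀ g) w).trans (mul_le_mul_of_nonneg_left (jn_emb σ₁ s.l_mono x)
        (norm_nonneg _))
    have e4 : |Lam (ofDual g) (s.U w - t • x)| ≤ ‖h‖ * (|t| / 4 * jn natSys x) := by
      refine (h1 _).trans (mul_le_mul_of_nonneg_left ?_ (norm_nonneg h))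
      refine (hUV x).trans (le_of_eq ?_)
      ring
    have e5 : |t| * |Lam (ofDual g) x| ≤ (‖Φ₀ g‖ + |t| / 4 * ‖h‖) * jn natSys x := by
      rw [← abs_mul, e1]
      refine (abs_sub _ _).trans ?_
      linarith
    rw [div_mul_eq_mul_div, le_div_iff₀ htpos]
    linarith
  rw [le_div_iff₀ htpos] at h3
  nlinarith

end core

end Pool.Agent.X205.JT
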