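import Pool.Agent.X205.JT.Upper

/-!
# Maps between James type spaces
-/

set_option autoImplicit false

namespace Pool.Agent.X205.JT

open Finset

section

variable {X Y : Type} {𝒮 : SegSys X} {𝒯 : SegSys Y}

theorem jn_mapDomain {g : X → Y} (hg : Function.Injective g)
    (h : ∀ S ∈ 𝒯.sets, S.preimage g hg.injOn ∈ 𝒮.sets ∨ S.preimage g hg.injOn = ∅)
    (x : X →₀ ℝ) : jn 𝒯 (x.mapDomain g) ≤ jn 𝒮 x := by
  apply jn_le (jn_nonneg x)
  intro P hP
  have h1 : ∀ S : Finset Y, ∑ b ∈ S, (x.mapDomain g) b = ∑ a ∈ S.preimage g hg.injOn, x a := by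
    intro S
    rw [← sum_preimage g S hg.injOn (x.mapDomain g) fun b _ hb =>
      Finsupp.mapDomain_of_notMem_range x b hb]
    exact sum_congr rfl fun a _ => Finsupp.mapDomain_apply hg x a
  simp only [h1]
  apply fam x P (fun S => S.preimage g hg.injOn) fun S hS => h S (hP.1 S hS)
  intro S hS S' hS' hne
  rw [disjoint_left]
  intro a ha ha'
  rw [mem_preimage] at ha ha'
  exact disjoint_left.1 (hP.2 S hS S' hS' hne) ha ha'

theorem jn_comapDomain {g : X → Y} (hg : Function.Injective g)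
    (h : ∀ S ∈ 𝒮.sets, S.map ⟨g, hg⟩ ∈ 𝒯.sets)
    (x : Y →₀ ℝ) : jn 𝒮 (x.comapDomain g hg.injOn) ≤ jn 𝒯 x := by
  apply jn_le (jn_nonneg x)
  intro P hP
  have h1 : ∀ S : Finset X, ∑ a ∈ S, (x.comapDomain g hg.injOn) a =
      ∑ b ∈ S.map ⟨g, hg⟩, x b := by
    intro S
    rw [sum_map]
    rfl
  simp only [h1]
  apply fam x P (fun S => S.map ⟨g, hg⟩) fun S hS => Or.inl (h S (hP.1 S hS))
  intro S hS S' hS' hne
  rw [disjoint_left]
  intro b hb hb'
  obtain ⟨a, ha, rfl⟩ := mem_map.1 hb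
  obtain ⟨a', ha', heq⟩ := mem_map.1 hb'
  have : a' = a := hg heq
  rw [this] at ha'
  exact disjoint_left.1 (hP.2 S hS S' hS' hne) ha ha'

theorem jn_le_l1 (x : X →₀ ℝ) : jn 𝒮 x ≤ ∑ a ∈ x.support, |x a| :=
  jn_le (sum_nonneg fun _ _ => abs_nonneg _) fun _ hP => val_le x hP

end

/-- an order-connected finite set of naturals is empty or an interval -/
theorem natSys_of_conn {T : Finset ℕ}
    (h : ∀ a ∈ T, ∀ b ∈ T, ∀ c, a ≤ c → c ≤ b → c ∈ T) : T ∈ natSys.sets ∨ T = ∅ := by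
  rcases T.eq_empty_or_nonempty with h0 | hne
  · exact Or.inr h0
  · left
    refine ⟨T.min' hne, T.max' hne, T.min'_le_max' hne, ?_⟩
    ext c
    rw [mem_Icc]
    exact ⟨fun hc => ⟨T.min'_le c hc, T.le_max' c hc⟩,
      fun hc => h _ (T.min'_mem hne) _ (T.max'_mem hne) c hc.1 hc.2⟩

/-! ### Shifts and the embedding of `J` along a branch -/

/-- left shift -/
noncomputable def shL : (ℕ →₀ ℝ) →ₗ[ℝ] (ℕ →₀ ℝ) := Finsupp.lcomapDomain Nat.succ Nat.succ_injective

theorem shL_apply (x : ℕ →₀ ℝ) (n : ℕ) : shL x n = x (n + 1) := rfl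

theorem jn_shL (x : ℕ →₀ ℝ) : jn natSys (shL x) ≤ jn natSys x := by
  apply jn_comapDomain Nat.succ_injective
  rintro S ⟨a, b, hab, rfl⟩
  refine ⟨a + 1, b + 1, by omega, ?_⟩
  ext n
  rw [mem_map, mem_Icc]
  constructor
  · rintro ⟨k, hk, rfl⟩
    rw [mem_Icc] at hk
    change a + 1 ≤ k + 1 ∧ k + 1 ≤ b + 1
    omega
  · rintro ⟨h1, h2⟩
    refine ⟨n - 1, mem_Icc.2 (by omega), ?_⟩
    change n - 1 + 1 = n
    omega

/-- right shift -/
noncomputable def shR (x : ℕ →₀ ℝ) : ℕ →₀ ℝ := x.mapDomain Nat.succ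

theorem shL_shR (x : ℕ →₀ ℝ) : shL (shR x) = x := by
  ext n
  rw [shL_apply]
  exact Finsupp.mapDomain_apply Nat.succ_injective x n

theorem shR_zero (x : ℕ →₀ ℝ) : shR x 0 = 0 := by
  apply Finsupp.mapDomain_of_notMem_range
  rintro ⟨n, hn⟩
  exact Nat.succ_ne_zero n hn

theorem jn_shR (x : ℕ →₀ ℝ) : jn natSys (shR x) ≤ jn natSys x := by
  apply jn_mapDomain Nat.succ_injective
  rintro S ⟨a, b, hab, rfl⟩
  apply natSys_of_conn
  intro p hp q hq c h1 h2
  rw [mem_preimage, mem_Icc] at *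
  simp only [Nat.succ_eq_add_one] at *
  omega

/-- restriction to a branch -/
noncomputable def rs (σ : ℕ → Bool) : (List Bool →₀ ℝ) →ₗ[ℝ] (ℕ →₀ ℝ) :=
  Finsupp.lcomapDomain (res σ) (res_injective σ)

theorem rs_apply (σ : ℕ → Bool) (x : List Bool →₀ ℝ) (n : ℕ) : rs σ x n = x (res σ n) := rfl

theorem jn_rs (σ : ℕ → Bool) (x : List Bool →₀ ℝ) : jn natSys (rs σ x) ≤ jn treeSys x := by
  apply jn_comapDomain (res_injective σ)
  rintro S ⟨a, b, hab, rfl⟩
  have : (Icc a b).map ⟨res σ, res_injective σ⟩ = pth σ a b := by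
    unfold pth
    rw [map_eq_image]
    rfl
  rw [this]
  exact pth_mem σ hab

/-- the embedding along a branch, at the levels `l j` -/
noncomputable def emb (σ : ℕ → Bool) (l : ℕ → ℕ) : (ℕ →₀ ℝ) →ₗ[ℝ] (List Bool →₀ ℝ) :=
  Finsupp.lmapDomain ℝ ℝ (fun j => res σ (l j))

theorem emb_apply (σ : ℕ → Bool) (l : ℕ → ℕ) (x : ℕ →₀ ℝ) :
    emb σ l x = x.mapDomain (fun j => res σ (l j)) := rfl

theorem emb_single (σ : ℕ → Bool) (l : ℕ → ℕ) (j : ℕ) (r : ℝ) :
    emb σ l (Finsupp.single j r) = Finsupp.single (res σ (l j)) r := by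
  rw [emb_apply, Finsupp.mapDomain_single]

theorem jn_emb (σ : ℕ → Bool) {l : ℕ → ℕ} (hl : StrictMono l) (x : ℕ →₀ ℝ) :
    jn treeSys (emb σ l x) ≤ jn natSys x := by
  have hinj : Function.Injective (fun j => res σ (l j)) := fun i j h =>
    hl.injective (res_injective σ h)
  rw [emb_apply]
  apply jn_mapDomain hinj
  intro S hS
  obtain ⟨τ, a, c, hac, rfl⟩ := exists_pth hS
  apply natSys_of_conn
  intro p hp q hq k h1 h2
  rw [mem_preimage, mem_pth, length_res] at *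
  have e1 := hl.monotone h1
  have e2 := hl.monotone h2
  exact ⟨by omega, by omega, res_eq_of_le e2 hq.2.2⟩

/-- tail sums on `ℕ` -/
noncomputable def ts (i : ℕ) : (ℕ →₀ ℝ) →ₗ[ℝ] ℝ :=
  Finsupp.linearCombination ℝ (fun j : ℕ => if i ≤ j then (1 : ℝ) else 0)

theorem ts_single (i j : ℕ) (r : ℝ) : ts i (Finsupp.single j r) = if i ≤ j then r else 0 := by
  unfold ts
  rw [Finsupp.linearCombination_single, smul_eq_mul]
  split_ifs <;> simp

theorem ts_diff (i : ℕ) (x : ℕ →₀ ℝ) : ts i x - ts (i + 1) x = x i := by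
  have h : ts i - ts (i + 1) = Finsupp.lapply i := by
    apply Finsupp.lhom_ext
    intro j r
    rw [LinearMap.sub_apply, ts_single, ts_single, Finsupp.lapply_apply, Finsupp.single_apply]
    by_cases h1 : j = i
    · subst h1
      rw [if_pos le_rfl, if_neg (by omega), if_pos rfl, sub_zero]
    · rw [if_neg h1]
      by_cases h2 : i ≤ j
      · rw [if_pos h2, if_pos (by omega), sub_self]
      · rw [if_neg h2, if_neg (by omega), sub_self]
  exact LinearMap.congr_fun h x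

theorem bf_emb_self (σ : ℕ → Bool) {l : ℕ → ℕ} (hl : StrictMono l) (i : ℕ) (x : ℕ →₀ ℝ) :
    bf σ (l i) (emb σ l x) = ts i x := by
  have h : (bf σ (l i)) ∘ₗ (emb σ l) = ts i := by
    apply Finsupp.lhom_ext
    intro j r
    rw [LinearMap.comp_apply, emb_single, bf_single, ts_single, length_res]
    simp only [hl.le_iff_le, and_true]
  exact LinearMap.congr_fun h x

theorem bf_emb_zero (σ : ℕ → Bool) {l : ℕ → ℕ} (x : ℕ →₀ ℝ) :
    bf σ 0 (emb σ l x) = ts 0 x := by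
  have h : (bf σ 0) ∘ₗ (emb σ l) = ts 0 := by
    apply Finsupp.lhom_ext
    intro j r
    rw [LinearMap.comp_apply, emb_single, bf_single, ts_single, length_res]
    simp
  exact LinearMap.congr_fun h x

theorem ts_le (x : ℕ →₀ ℝ) : |ts 0 x| ≤ jn natSys x := by
  rw [← bf_emb_zero (fun _ => false) (l := id)]
  exact (bf_le _ _ _).trans (jn_emb _ strictMono_id x)

theorem bf_emb_ne {σ τ : ℕ → Bool} {l : ℕ → ℕ} {n : ℕ} (hne : res τ n ≠ res σ n) (x : ℕ →₀ ℝ) :
    bf τ (n + 1) (emb σ l x) = 0 := by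
  have h : (bf τ (n + 1)) ∘ₗ (emb σ l) = 0 := by
    apply Finsupp.lhom_ext
    intro j r
    rw [LinearMap.comp_apply, emb_single, bf_single, LinearMap.zero_apply, length_res]
    rw [if_neg]
    rintro ⟨h1, h2⟩
    exact hne (res_eq_of_le (by omega) h2.symm)
  exact LinearMap.congr_fun h x

theorem rs_emb (σ : ℕ → Bool) (x : ℕ →₀ ℝ) : rs σ (emb σ id x) = x := by
  ext n
  rw [rs_apply, emb_apply]
  exact Finsupp.mapDomain_apply (res_injective σ) x n

end Pool.Agent.X205.JT
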