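import Pool.Agent.X205.JT.Struct
import Pool.Agent.Helper31.Helly

/-!
# Sequences approximating an element of the bidual
-/

set_option autoImplicit false

namespace Pool.Agent.X205.JT

open Finset Filter Topology

section dual

variable {X : Type} {𝒮 : SegSys X}

/-- a bounded functional as a linear functional on finitely supported functions -/
noncomputable def ofDual (g : StrongDual ℝ (JSp 𝒮)) : (X →₀ ℝ) →ₗ[ℝ] ℝ where
  toFun x := g (show JSp 𝒮 from x)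
  map_add' x y := map_add g (show JSp 𝒮 from x) (show JSp 𝒮 from y)
  map_smul' c x := map_smul g c (show JSp 𝒮 from x)

theorem ofDual_le (g : StrongDual ℝ (JSp 𝒮)) (x : X →₀ ℝ) : |ofDual g x| ≤ ‖g‖ * jn 𝒮 x :=
  g.le_opNorm (show JSp 𝒮 from x)

/-- a linear functional with a bound as a bounded functional -/
noncomputable def toDual (z : (X →₀ ℝ) →ₗ[ℝ] ℝ) (C : ℝ) (h : ∀ x, |z x| ≤ C * jn 𝒮 x) :
    StrongDual ℝ (JSp 𝒮) :=
  LinearMap.mkContinuous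
    { toFun := fun x : JSp 𝒮 => z (show X →₀ ℝ from x)
      map_add' := fun x y => map_add z (show X →₀ ℝ from x) (show X →₀ ℝ from y)
      map_smul' := fun c x => map_smul z c (show X →₀ ℝ from x) } C h

theorem toDual_apply (z : (X →₀ ℝ) →ₗ[ℝ] ℝ) (C : ℝ) (h : ∀ x, |z x| ≤ C * jn 𝒮 x)
    (x : X →₀ ℝ) : toDual z C h (show JSp 𝒮 from x) = z x := rfl

theorem ofDual_toDual (z : (X →₀ ℝ) →ₗ[ℝ] ℝ) (C : ℝ) (h : ∀ x, |z x| ≤ C * jn 𝒮 x) :
    ofDual (toDual z C h) = z := rfl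

theorem norm_toDual_le (z : (X →₀ ℝ) →ₗ[ℝ] ℝ) {C : ℝ} (hC : 0 ≤ C)
    (h : ∀ x, |z x| ≤ C * jn 𝒮 x) : ‖toDual z C h‖ ≤ C := LinearMap.mkContinuous_norm_le _ hC _

theorem norm_le_of (g : StrongDual ℝ (JSp 𝒮)) {C : ℝ} (hC : 0 ≤ C)
    (h : ∀ x, |ofDual g x| ≤ C * jn 𝒮 x) : ‖g‖ ≤ C := g.opNorm_le_bound hC h

theorem ofDual_injective : Function.Injective (ofDual (𝒮 := 𝒮)) := by
  intro g h hgh
  ext x
  exact LinearMap.congr_fun hgh x

end dual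

/-! ### Linearity of the limits -/

theorem th_eq {z : (List Bool →₀ ℝ) →ₗ[ℝ] ℝ} {σ : ℕ → Bool} {a : ℝ}
    (h : Tendsto (fun n => z (Finsupp.single (res σ n) 1)) atTop (𝓝 a)) : th z σ = a :=
  h.limUnder_eq

theorem th_add {z z' : (List Bool →₀ ℝ) →ₗ[ℝ] ℝ} {M M' : ℝ}
    (hz : ∀ x, |z x| ≤ M * jn treeSys x) (hz' : ∀ x, |z' x| ≤ M' * jn treeSys x)
    (σ : ℕ → Bool) : th (z + z') σ = th z σ + th z' σ :=
  th_eq ((th_tendsto hz σ).add (th_tendsto hz' σ))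

theorem th_sub {z z' : (List Bool →₀ ℝ) →ₗ[ℝ] ℝ} {M M' : ℝ}
    (hz : ∀ x, |z x| ≤ M * jn treeSys x) (hz' : ∀ x, |z' x| ≤ M' * jn treeSys x)
    (σ : ℕ → Bool) : th (z - z') σ = th z σ - th z' σ :=
  th_eq ((th_tendsto hz σ).sub (th_tendsto hz' σ))

theorem th_smul {z : (List Bool →₀ ℝ) →ₗ[ℝ] ℝ} {M : ℝ}
    (hz : ∀ x, |z x| ≤ M * jn treeSys x) (c : ℝ) (σ : ℕ → Bool) :
    th (c • z) σ = c * th z σ :=
  th_eq ((th_tendsto hz σ).const_mul c)

theorem th_le {z : (List Bool →₀ ℝ) →ₗ[ℝ] ℝ} {M : ℝ} (hM : 0 ≤ M)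
    (hz : ∀ x, |z x| ≤ M * jn treeSys x) (σ : ℕ → Bool) : |th z σ| ≤ M := by
  refine le_of_tendsto (th_tendsto hz σ).abs (Eventually.of_forall fun n => ?_)
  refine (hz _).trans ?_
  have h := jn_single_le (𝒮 := treeSys) (res σ n) 1
  rw [abs_one] at h
  nlinarith

section seq

variable {W : Type} [NormedAddCommGroup W] [NormedSpace ℝ W]
  (R : W →ₗᵢ[ℝ] StrongDual ℝ (JSp treeSys))

theorem fn_le (w : W) (x : List Bool →₀ ℝ) : |ofDual (R w) x| ≤ ‖w‖ * jn treeSys x := by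
  have := ofDual_le (R w) x
  rwa [R.norm_map] at this

/-- evaluation at a point as a functional on `W` -/
noncomputable def evR (x : List Bool →₀ ℝ) : StrongDual ℝ W :=
  LinearMap.mkContinuous
    { toFun := fun w => ofDual (R w) x
      map_add' := fun v w => by rw [map_add]; rfl
      map_smul' := fun c w => by rw [map_smul]; rfl } (jn treeSys x)
    (fun w => by rw [mul_comm]; exact fn_le R w x)

theorem evR_apply (x : List Bool →₀ ℝ) (w : W) : evR R x w = ofDual (R w) x := rfl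

theorem norm_evR_le (x : List Bool →₀ ℝ) : ‖evR R x‖ ≤ jn treeSys x :=
  LinearMap.mkContinuous_norm_le _ (jn_nonneg x) _

/-- the limit along a branch as a functional on `W` -/
noncomputable def thR (σ : ℕ → Bool) : StrongDual ℝ W :=
  LinearMap.mkContinuous
    { toFun := fun w => th (ofDual (R w)) σ
      map_add' := fun v w => by
        rw [map_add]; exact th_add (fn_le R v) (fn_le R w) σ
      map_smul' := fun c w => by
        rw [map_smul]; exact th_smul (fn_le R w) c σ } 1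
    (fun w => by rw [one_mul]; exact th_le (norm_nonneg w) (fn_le R w) σ)

theorem thR_apply (σ : ℕ → Bool) (w : W) : thR R σ w = th (ofDual (R w)) σ := rfl

variable (Ψ : StrongDual ℝ (StrongDual ℝ W))

/-- the weak-star part of an element of the bidual -/
noncomputable def y0 : (List Bool →₀ ℝ) →ₗ[ℝ] ℝ where
  toFun x := Ψ (evR R x)
  map_add' x y := by
    rw [← map_add]
    congr 1
    ext w
    exact map_add (ofDual (R w)) x y
  map_smul' c x := by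
    rw [RingHom.id_apply, ← map_smul]
    congr 1
    ext w
    exact map_smul (ofDual (R w)) c x

theorem y0_le (x : List Bool →₀ ℝ) : |y0 R Ψ x| ≤ ‖Ψ‖ * jn treeSys x := by
  refine (Ψ.le_opNorm (evR R x)).trans ?_
  exact mul_le_mul_of_nonneg_left (norm_evR_le R x) (norm_nonneg Ψ)

/-- the defect along a branch -/
noncomputable def tt (σ : ℕ → Bool) : ℝ := Ψ (thR R σ) - th (y0 R Ψ) σ

theorem sum_tt_sq (F : Finset (ℕ → Bool)) : ∑ σ ∈ F, tt R Ψ σ ^ 2 ≤ (2 * ‖Ψ‖) ^ 2 := by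
  set A := ∑ σ ∈ F, tt R Ψ σ ^ 2 with hA
  have hA0 : 0 ≤ A := sum_nonneg fun _ _ => sq_nonneg _
  -- Cauchy-Schwarz for the limits
  have cs : ∀ (z : (List Bool →₀ ℝ) →ₗ[ℝ] ℝ) (M : ℝ), 0 ≤ M →
      (∀ x, |z x| ≤ M * jn treeSys x) → |∑ σ ∈ F, tt R Ψ σ * th z σ| ≤ √A * M := by
    intro z M hM hz
    have h1 := sum_mul_sq_le_sq_mul_sq F (fun σ => tt R Ψ σ) (fun σ => th z σ)
    have h2 := sum_th_sq hM hz F
    apply abs_le_of_sq_le_sq _ (by positivity)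
    rw [mul_pow, Real.sq_sqrt hA0]
    exact h1.trans (mul_le_mul_of_nonneg_left h2 hA0)
  have h1 : A = Ψ (∑ σ ∈ F, tt R Ψ σ • thR R σ) - ∑ σ ∈ F, tt R Ψ σ * th (y0 R Ψ) σ := by
    rw [map_sum, ← sum_sub_distrib, hA]
    refine sum_congr rfl fun σ _ => ?_
    rw [map_smul, smul_eq_mul, ← mul_sub, pow_two]
    rfl
  have h2 : ‖∑ σ ∈ F, tt R Ψ σ • thR R σ‖ ≤ √A := by
    apply ContinuousLinearMap.opNorm_le_bound _ (Real.sqrt_nonneg _)
    intro w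
    have h3 : (∑ σ ∈ F, tt R Ψ σ • thR R σ) w = ∑ σ ∈ F, tt R Ψ σ * th (ofDual (R w)) σ := by
      rw [_root_.sum_apply]
      rfl
    rw [h3]
    exact cs _ _ (norm_nonneg w) (fn_le R w)
  have h3 := cs _ _ (norm_nonneg Ψ) (y0_le R Ψ)
  have h4 : |Ψ (∑ σ ∈ F, tt R Ψ σ • thR R σ)| ≤ ‖Ψ‖ * √A :=
    (Ψ.le_opNorm _).trans (mul_le_mul_of_nonneg_left h2 (norm_nonneg Ψ))
  have h5 : A ≤ (2 * ‖Ψ‖) * √A := by
    rw [abs_le] at h3 h4
    nlinarith [h3.1, h4.2]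
  have h6 : √A ≤ 2 * ‖Ψ‖ := by
    rcases hA0.eq_or_lt with h | h
    · rw [← h, Real.sqrt_zero]; positivity
    · have hs : 0 < √A := Real.sqrt_pos.2 h
      have h4 : √A * √A ≤ (2 * ‖Ψ‖) * √A := by rw [Real.mul_self_sqrt hA0]; exact h5
      exact le_of_mul_le_mul_right h4 hs
  calc A = √A ^ 2 := (Real.sq_sqrt hA0).symm
    _ ≤ _ := pow_le_pow_left₀ (Real.sqrt_nonneg _) h6 2

/-- one step of the construction -/
theorem step (f : StrongDual ℝ W) (F : Finset (ℕ → Bool)) (m : ℕ) {ε : ℝ} (hε : 0 < ε) :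
    ∃ (y : W) (F' : Finset (ℕ → Bool)) (n : ℕ), F ⊆ F' ∧ m ≤ n ∧ Sep F' n ∧ ‖y‖ ≤ ‖Ψ‖ + 1 ∧
      f y = Ψ f ∧
      (∀ x : List Bool →₀ ℝ, (∀ β ∈ x.support, β.length ≤ m) →
        (ofDual (R y) - y0 R Ψ) x = 0) ∧
      (∀ σ ∈ F, th (ofDual (R y) - y0 R Ψ) σ = tt R Ψ σ) ∧
      ∀ x : List Bool →₀ ℝ, (∀ β ∈ x.support, n < β.length) →
        |rem (ofDual (R y) - y0 R Ψ) F' x| ≤ ε * jn treeSys x := by
  classical
  set L : Finset (List Bool) := (List.finite_length_le Bool m).toFinset with hL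
  have hLm : ∀ β : List Bool, β ∈ L ↔ β.length ≤ m := by
    intro β
    rw [hL, Set.Finite.mem_toFinset]
    exact Iff.rfl
  let G : Unit ⊕ ({β // β ∈ L} ⊕ {σ // σ ∈ F}) → StrongDual ℝ W :=
    Sum.elim (fun _ => f) (Sum.elim (fun β => evR R (Finsupp.single β.1 1))
      (fun σ => thR R σ.1))
  obtain ⟨y, hy1, hy2⟩ := Pool.Agent.Helper31.Helly.helly G Ψ (lt_add_one ‖Ψ‖)
  have e1 : f y = Ψ f := hy2 (Sum.inl ())
  have e2 : ∀ β : List Bool, β.length ≤ m → ofDual (R y) (Finsupp.single β 1) =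
      y0 R Ψ (Finsupp.single β 1) := fun β hβ => hy2 (Sum.inr (Sum.inl ⟨β, (hLm β).2 hβ⟩))
  have e3 : ∀ σ ∈ F, th (ofDual (R y)) σ = Ψ (thR R σ) :=
    fun σ hσ => hy2 (Sum.inr (Sum.inr ⟨σ, hσ⟩))
  have hzb : ∀ x, |(ofDual (R y) - y0 R Ψ) x| ≤ (‖y‖ + ‖Ψ‖) * jn treeSys x := by
    intro x
    rw [LinearMap.sub_apply, add_mul]
    exact (abs_sub _ _).trans (add_le_add (fn_le R y x) (y0_le R Ψ x))
  obtain ⟨F', hF', n, hn, hsep, hrem⟩ := struct (by positivity) hzb hε F m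
  refine ⟨y, F', n, hF', hn, hsep, hy1.le, e1, ?_, ?_, hrem⟩
  · intro x hx
    have h1 : x = ∑ β ∈ x.support, x β • Finsupp.single β (1 : ℝ) := by
      conv_lhs => rw [← Finsupp.sum_single x]
      unfold Finsupp.sum
      refine sum_congr rfl fun β _ => ?_
      rw [Finsupp.smul_single, smul_eq_mul, mul_one]
    rw [h1, map_sum]
    apply Finset.sum_eq_zero
    intro β hβ
    rw [map_smul, LinearMap.sub_apply, e2 β (hx β hβ), sub_self, smul_zero]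
  · intro σ hσ
    rw [th_sub (fn_le R y) (y0_le R Ψ) σ, e3 σ hσ]
    rfl

/-- The approximating sequence. -/
structure AppSeq (f : StrongDual ℝ W) (F₀ : Finset (ℕ → Bool)) (e : ℕ → ℝ) where
  y : ℕ → W
  G : ℕ → Finset (ℕ → Bool)
  m : ℕ → ℕ
  n : ℕ → ℕ
  G0 : G 0 = F₀
  G_sub : ∀ i, G i ⊆ G (i + 1)
  m_le : ∀ i, m i ≤ n i
  m_succ : ∀ i, m (i + 1) = n i + 1
  sep : ∀ i, Sep (G (i + 1)) (n i)
  norm_y : ∀ i, ‖y i‖ ≤ ‖Ψ‖ + 1
  f_y : ∀ i, f (y i) = Ψ f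
  zero : ∀ i (x : List Bool →₀ ℝ), (∀ β ∈ x.support, β.length ≤ m i) →
    (ofDual (R (y i)) - y0 R Ψ) x = 0
  th_z : ∀ i, ∀ σ ∈ G i, th (ofDual (R (y i)) - y0 R Ψ) σ = tt R Ψ σ
  rem_z : ∀ i (x : List Bool →₀ ℝ), (∀ β ∈ x.support, n i < β.length) →
    |rem (ofDual (R (y i)) - y0 R Ψ) (G (i + 1)) x| ≤ e i * jn treeSys x

theorem exists_appSeq (f : StrongDual ℝ W) (F₀ : Finset (ℕ → Bool)) (e : ℕ → ℝ)
    (he : ∀ i, 0 < e i) : Nonempty (AppSeq R Ψ f F₀ e) := by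
  have hstep : ∀ (i : ℕ) (F : Finset (ℕ → Bool)) (m : ℕ), ∃ (y : W) (F' : Finset (ℕ → Bool))
      (n : ℕ), F ⊆ F' ∧ m ≤ n ∧ Sep F' n ∧ ‖y‖ ≤ ‖Ψ‖ + 1 ∧ f y = Ψ f ∧
      (∀ x : List Bool →₀ ℝ, (∀ β ∈ x.support, β.length ≤ m) →
        (ofDual (R y) - y0 R Ψ) x = 0) ∧
      (∀ σ ∈ F, th (ofDual (R y) - y0 R Ψ) σ = tt R Ψ σ) ∧
      ∀ x : List Bool →₀ ℝ, (∀ β ∈ x.support, n < β.length) →
        |rem (ofDual (R y) - y0 R Ψ) F' x| ≤ e i * jn treeSys x :=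
    fun i F m => step R Ψ f F m (he i)
  choose Y FF NN h1 h2 h3 h4 h5 h6 h7 h8 using hstep
  let st : ℕ → Finset (ℕ → Bool) × ℕ := fun i =>
    Nat.rec (F₀, 0) (fun i p => (FF i p.1 p.2, NN i p.1 p.2 + 1)) i
  have hst : ∀ i, st (i + 1) = (FF i (st i).1 (st i).2, NN i (st i).1 (st i).2 + 1) := fun _ => rfl
  exact ⟨{
    y := fun i => Y i (st i).1 (st i).2
    G := fun i => (st i).1
    m := fun i => (st i).2
    n := fun i => NN i (st i).1 (st i).2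
    G0 := rfl
    G_sub := fun i => h1 i _ _
    m_le := fun i => h2 i _ _
    m_succ := fun i => rfl
    sep := fun i => h3 i _ _
    norm_y := fun i => h4 i _ _
    f_y := fun i => h5 i _ _
    zero := fun i => h6 i _ _
    th_z := fun i => h7 i _ _
    rem_z := fun i => h8 i _ _ }⟩

end seq

end Pool.Agent.X205.JT
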