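import Pool.Agent.X205.JT.ZB

/-!
# The structure of the functionals on the James tree space
-/

set_option autoImplicit false

namespace Pool.Agent.X205.JT

open Finset Filter Topology

/-- the functional minus its branch parts -/
noncomputable def rem (z : (List Bool →₀ ℝ) →ₗ[ℝ] ℝ) (F : Finset (ℕ → Bool)) :
    (List Bool →₀ ℝ) →ₗ[ℝ] ℝ := z - ∑ σ ∈ F, th z σ • bf σ 0

theorem rem_apply (z : (List Bool →₀ ℝ) →ₗ[ℝ] ℝ) (F : Finset (ℕ → Bool)) (x : List Bool →₀ ℝ) :
    rem z F x = z x - ∑ σ ∈ F, th z σ * bf σ 0 x := by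
  unfold rem
  rw [LinearMap.sub_apply, LinearMap.sum_apply]
  rfl

section

variable {z : (List Bool →₀ ℝ) →ₗ[ℝ] ℝ} {M : ℝ}

theorem small (hz : ∀ x, |z x| ≤ M * jn treeSys x) (F : Finset (ℕ → Bool)) {η : ℝ}
    (hη : 0 < η) (hF : ∀ σ, σ ∉ F → |th z σ| < η) :
    ∃ n₁, ∀ ν : List Bool, n₁ ≤ ν.length → ∀ u : List Bool →₀ ℝ, (∀ β ∈ u.support, ν <+: β) →
      |rem z F u| ≤ 2 * η * jn treeSys u := by
  classical
  apply fan
  · intro β γ hβγ h u hu
    exact h u fun α hα => hβγ.trans (hu α hα)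
  · intro τ
    obtain ⟨na, hna⟩ := atom hz τ hη
    obtain ⟨ns, hns⟩ := exists_sep (insert τ F)
    refine ⟨max na ns, fun u hu => ?_⟩
    have hju := jn_nonneg (𝒮 := treeSys) u
    have h1 := hna u fun β hβ => (res_prefix τ (le_max_left _ _)).trans (hu β hβ)
    have h2 : ∀ σ ∈ F, σ ≠ τ → th z σ * bf σ 0 u = 0 := by
      intro σ hσ hne
      rw [bf_zero_sub 0 hu ((hns.mono (le_max_right na ns)) σ (mem_insert_of_mem hσ) τ
        (mem_insert_self _ _) hne), mul_zero]
    rw [rem_apply]
    by_cases hτ : τ ∈ F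
    · rw [sum_eq_single_of_mem τ hτ h2]
      nlinarith
    · rw [sum_eq_zero fun σ hσ => h2 σ hσ fun h => hτ (h ▸ hσ), sub_zero]
      have h3 : |th z τ * bf τ 0 u| ≤ η * jn treeSys u := by
        rw [abs_mul]
        exact mul_le_mul (hF τ hτ).le (bf_le τ 0 u) (abs_nonneg _) hη.le
      have h4 : z u = (z u - th z τ * bf τ 0 u) + th z τ * bf τ 0 u := by ring
      rw [h4]
      refine (abs_add_le _ _).trans ?_
      linarith

theorem near_F (hz : ∀ x, |z x| ≤ M * jn treeSys x) (F : Finset (ℕ → Bool)) {η : ℝ}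
    (hη : 0 < η) : ∃ n₂, ∀ n, n₂ ≤ n → ∀ σ ∈ F, ∀ u : List Bool →₀ ℝ,
      (∀ β ∈ u.support, res σ n <+: β) → |rem z F u| ≤ η * jn treeSys u := by
  choose f hf using fun σ => atom hz σ hη
  obtain ⟨ns, hns⟩ := exists_sep F
  refine ⟨max (F.sup f) ns, fun n hn σ hσ u hu => ?_⟩
  have h1 := hf σ u fun β hβ => (res_prefix σ (((le_sup hσ).trans (le_max_left _ _)).trans hn)).trans
    (hu β hβ)
  have h2 : ∀ τ ∈ F, τ ≠ σ → th z τ * bf τ 0 u = 0 := by
    intro τ hτ hne
    rw [bf_zero_sub 0 hu ((hns.mono ((le_max_right _ _).trans hn)) τ hτ σ hσ hne), mul_zero]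
  rw [rem_apply, sum_eq_single_of_mem σ hσ h2]
  exact h1

theorem large_finite (hM : 0 ≤ M) (hz : ∀ x, |z x| ≤ M * jn treeSys x) {η : ℝ} (hη : 0 < η) :
    {σ : ℕ → Bool | η ≤ |th z σ|}.Finite := by
  by_contra hinf
  obtain ⟨N, hN⟩ := exists_nat_gt (M ^ 2 / η ^ 2)
  obtain ⟨F, hF, hcard⟩ := Set.Infinite.exists_subset_card_eq hinf N
  have h1 := sum_th_sq hM hz F
  have h2 : (N : ℝ) * η ^ 2 ≤ ∑ σ ∈ F, th z σ ^ 2 := by
    rw [← hcard, ← nsmul_eq_mul, ← sum_const]
    refine sum_le_sum fun σ hσ => ?_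
    have h3 : η ≤ |th z σ| := hF hσ
    rw [← sq_abs (th z σ)]
    exact pow_le_pow_left₀ hη.le h3 2
  rw [div_lt_iff₀ (by positivity)] at hN
  linarith

/-- the nodes of level `n` -/
noncomputable def lev (n : ℕ) : Finset (List Bool) := (List.finite_length_eq Bool n).toFinset

theorem mem_lev {n : ℕ} {β : List Bool} : β ∈ lev n ↔ β.length = n := by
  unfold lev
  rw [Set.Finite.mem_toFinset]
  exact Iff.rfl

theorem cvx_take {n : ℕ} (g : List Bool → Prop) [DecidablePred g]
    (hg : (∀ ν, ν.length < n → g ν) ∨ (∀ ν, ν.length < n → ¬ g ν)) :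
    Cvx treeSys (fun β : List Bool => g (β.take n)) := by
  apply cvx_tree
  intro σ l₁ l l₂ h1 h2 g1 g2
  rcases le_or_gt n l with hl | hl
  · rw [take_res_of_le σ (hl.trans h2)] at g2
    rw [take_res_of_le σ hl]
    exact g2
  · rw [take_res, min_eq_right hl.le]
    rw [take_res, min_eq_right (h1.trans hl.le)] at g1
    rcases hg with hg | hg
    · exact hg _ (by rw [length_res]; exact hl)
    · exact absurd g1 (hg _ (by rw [length_res]; omega))

theorem jn_filter_take (x : List Bool →₀ ℝ) {n : ℕ} {ν : List Bool} (hν : ν.length = n) :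
    jn treeSys (x.filter (fun β => β.take n = ν)) ≤ jn treeSys x := by
  apply jn_filter x
  apply cvx_take (fun γ => γ = ν)
  right
  rintro γ hγ rfl
  omega

theorem support_filter_take (x : List Bool →₀ ℝ) {n : ℕ} {ν : List Bool} :
    ∀ β ∈ (x.filter (fun β => β.take n = ν)).support, ν <+: β := by
  intro β hβ
  rw [Finsupp.support_filter, mem_filter] at hβ
  rw [← hβ.2]
  exact List.take_prefix n β

theorem block (hM : 0 ≤ M) (hz : ∀ x, |z x| ≤ M * jn treeSys x) {ε : ℝ} (hε : 0 < ε)
    (F₀ : Finset (ℕ → Bool)) (n₀ : ℕ)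
    (H : ∀ F, F₀ ⊆ F → ∀ n, n₀ ≤ n → Sep F n → ∃ x : List Bool →₀ ℝ,
      (∀ β ∈ x.support, n < β.length) ∧ ε * jn treeSys x < |rem z F x|) (b : ℕ) {δ : ℝ}
    (hδ : 0 < δ) : ∃ x : List Bool →₀ ℝ, (∀ β ∈ x.support, b < β.length) ∧ jn treeSys x ≤ 1 ∧
      ε / 2 ≤ z x ∧ ∀ S ∈ treeSys.sets, |∑ β ∈ S, x β| ≤ δ := by
  classical
  set η := ε * δ ^ 2 / 16 with hηdef
  have hη : 0 < η := by positivity
  set F := F₀ ∪ (large_finite hM hz hη).toFinset with hF
  have hFs : ∀ σ, σ ∉ F → |th z σ| < η := by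
    intro σ hσ
    by_contra hge
    push Not at hge
    exact hσ (mem_union_right _ ((large_finite hM hz hη).mem_toFinset.2 hge))
  obtain ⟨n₁, hn₁⟩ := small hz F hη hFs
  set η₂ := ε / (8 * ((F.card : ℝ) + 1)) with hη₂def
  have hη₂ : 0 < η₂ := by positivity
  obtain ⟨n₂, hn₂⟩ := near_F hz F hη₂
  obtain ⟨ns, hns⟩ := exists_sep F
  set n := max (max (max n₀ b) (max n₁ n₂)) ns with hn
  have hn0 : n₀ ≤ n := by omega
  have hnb : b ≤ n := by omega
  have hn1 : n₁ ≤ n := by omega
  have hn2 : n₂ ≤ n := by omega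
  have hnn : ns ≤ n := by omega
  obtain ⟨x, hx1, hx2⟩ := H F subset_union_left n hn0 (hns.mono hnn)
  have hx0 : 0 < jn treeSys x := by
    rcases (jn_nonneg (𝒮 := treeSys) x).eq_or_lt with h | h
    · have hu : x = 0 := jn_eq_zero h.symm
      rw [hu, map_zero, jn_zero, mul_zero, abs_zero] at hx2
      exact absurd hx2 (lt_irrefl _)
    · exact h
  obtain ⟨s, hs1, hs2⟩ : ∃ s : ℝ, |s| = 1 ∧ s * rem z F x = |rem z F x| := by
    rcases le_total 0 (rem z F x) with h | h
    · exact ⟨1, abs_one, by rw [abs_of_nonneg h, one_mul]⟩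
    · exact ⟨-1, by simp, by rw [abs_of_nonpos h]; ring⟩
  set y : List Bool →₀ ℝ := (s * (jn treeSys x)⁻¹) • x with hy
  have hyn : jn treeSys y = 1 := by
    rw [hy, jn_smul, abs_mul, hs1, one_mul, abs_inv, abs_of_pos hx0, inv_mul_cancel₀ hx0.ne']
  have hyz : ε < rem z F y := by
    rw [hy, map_smul, smul_eq_mul, mul_comm s, mul_assoc, hs2]
    rw [lt_inv_mul_iff₀ hx0, mul_comm]
    exact hx2
  have hys : ∀ β ∈ y.support, n < β.length := fun β hβ => hx1 β (Finsupp.support_smul hβ)
  have hy0 : ∀ β : List Bool, β.length ≤ n → y β = 0 := by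
    intro β hβ
    by_contra hne
    have := hys β (Finsupp.mem_support_iff.2 hne)
    omega
  -- the bad nodes
  set Bad := (lev n).filter (fun ν => ∃ S ∈ treeSys.sets,
    δ < |∑ β ∈ S.filter (fun β => β.take n = ν), y β|) with hBad
  have hBadn : ∀ ν ∈ Bad, ν.length = n := fun ν hν => mem_lev.1 (mem_filter.1 hν).1
  have hcard : (Bad.card : ℝ) * δ ^ 2 ≤ 1 := by
    have hch : ∀ ν : List Bool, ∃ S : Finset (List Bool), ν ∈ Bad → S ∈ treeSys.sets ∧
        δ < |∑ β ∈ S.filter (fun β => β.take n = ν), y β| := by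
      intro ν
      by_cases hν : ν ∈ Bad
      · obtain ⟨S, h1, h2⟩ := (mem_filter.1 hν).2
        exact ⟨S, fun _ => ⟨h1, h2⟩⟩
      · exact ⟨∅, fun h => absurd h hν⟩
    choose S hS using hch
    have h1 := fam (𝒮 := treeSys) y Bad (fun ν => (S ν).filter (fun β => β.take n = ν)) ?_ ?_
    · rw [hyn, one_pow] at h1
      refine le_trans ?_ h1
      rw [← nsmul_eq_mul, ← sum_const]
      refine sum_le_sum fun ν hν => ?_
      rw [← sq_abs (∑ β ∈ (S ν).filter (fun β => β.take n = ν), y β)]
      exact pow_le_pow_left₀ hδ.le (hS ν hν).2.le 2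
    · intro ν hν
      have hc : Cvx treeSys (fun β : List Bool => β.take n = ν) := by
        apply cvx_take (fun γ => γ = ν)
        right
        rintro γ hγ rfl
        rw [hBadn _ hν] at hγ
        exact lt_irrefl _ hγ
      exact hc _ (hS ν hν).1
    · intro ν hν ν' hν' hne
      rw [disjoint_left]
      intro β h1 h2
      exact hne ((mem_filter.1 h1).2.symm.trans (mem_filter.1 h2).2)
  set Q := Bad ∪ F.image (fun σ => res σ n) with hQ
  have hQn : ∀ ν ∈ Q, ν.length = n := by
    intro ν hν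
    rcases mem_union.1 hν with h | h
    · exact hBadn ν h
    · obtain ⟨σ, -, rfl⟩ := mem_image.1 h
      exact length_res σ n
  have hgood : Cvx treeSys (fun β : List Bool => β.take n ∉ Q) := by
    apply cvx_take (fun γ => γ ∉ Q)
    left
    intro ν hν hmem
    have := hQn ν hmem
    omega
  set w := y.filter (fun β => β.take n ∉ Q) with hw
  have hdec : y = w + ∑ ν ∈ Q, y.filter (fun β => β.take n = ν) := by
    ext β
    rw [Finsupp.add_apply, Finsupp.coe_finsetSum, Finset.sum_apply, hw]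
    simp only [Finsupp.filter_apply]
    by_cases hβ : β.take n ∈ Q
    · rw [if_neg (not_not.2 hβ), zero_add, sum_ite_eq, if_pos hβ]
    · rw [if_pos hβ, sum_ite_eq, if_neg hβ, add_zero]
  have hzQ : |∑ ν ∈ Q, rem z F (y.filter (fun β => β.take n = ν))| ≤ ε / 4 := by
    refine (abs_sum_le_sum_abs _ _).trans ?_
    have h1 : ∀ ν ∈ Q, |rem z F (y.filter (fun β => β.take n = ν))| ≤ 2 * η := by
      intro ν hν
      have e1 := hn₁ ν (by rw [hQn ν hν]; exact hn1) _ (support_filter_take (n := n) (ν := ν) y)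
      have e2 := jn_filter_take y (hQn ν hν)
      rw [hyn] at e2
      nlinarith
    have h2 : ∀ ν ∈ F.image (fun σ => res σ n),
        |rem z F (y.filter (fun β => β.take n = ν))| ≤ η₂ := by
      intro ν hν
      obtain ⟨σ, hσ, rfl⟩ := mem_image.1 hν
      have e1 := hn₂ n hn2 σ hσ _ (support_filter_take (n := n) (ν := res σ n) y)
      have e2 := jn_filter_take y (length_res σ n)
      rw [hyn] at e2
      nlinarith
    have h3 : ∑ ν ∈ Q, |rem z F (y.filter (fun β => β.take n = ν))| ≤
        ∑ ν ∈ Bad, |rem z F (y.filter (fun β => β.take n = ν))| +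
        ∑ ν ∈ F.image (fun σ => res σ n), |rem z F (y.filter (fun β => β.take n = ν))| := by
      rw [hQ, ← sum_union_inter]
      have : 0 ≤ ∑ ν ∈ Bad ∩ F.image (fun σ => res σ n),
          |rem z F (y.filter (fun β => β.take n = ν))| := sum_nonneg fun _ _ => abs_nonneg _
      linarith
    have h4 : ∑ ν ∈ Bad, |rem z F (y.filter (fun β => β.take n = ν))| ≤ ε / 8 := by
      refine (sum_le_sum fun ν hν => h1 ν (mem_union_left _ hν)).trans ?_
      rw [sum_const, nsmul_eq_mul, hηdef]
      nlinarith [mul_le_mul_of_nonneg_left hcard hε.le]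
    have h5 : ∑ ν ∈ F.image (fun σ => res σ n), |rem z F (y.filter (fun β => β.take n = ν))| ≤
        ε / 8 := by
      refine (sum_le_sum h2).trans ?_
      rw [sum_const, nsmul_eq_mul]
      have e1 : ((F.image (fun σ => res σ n)).card : ℝ) ≤ (F.card : ℝ) := by
        exact_mod_cast card_image_le
      have e2 : ((F.card : ℝ) + 1) * η₂ = ε / 8 := by
        have hc0 : (0 : ℝ) ≤ (F.card : ℝ) := Nat.cast_nonneg _
        have hc1 : (8 * ((F.card : ℝ) + 1)) ≠ 0 := ne_of_gt (by linarith)
        rw [hη₂def, mul_div_assoc', div_eq_div_iff hc1 (by norm_num)]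
        ring
      nlinarith
    linarith
  have hwF : ∀ σ ∈ F, bf σ 0 w = 0 := by
    intro σ hσ
    unfold bf
    rw [Finsupp.linearCombination_apply]
    apply Finset.sum_eq_zero
    intro β hβ
    rw [hw, Finsupp.support_filter, mem_filter] at hβ
    have h2 : ¬ (0 ≤ β.length ∧ β = res σ β.length) := by
      rintro ⟨-, h⟩
      apply hβ.2
      rw [h, take_res_of_le σ (hys β hβ.1).le]
      exact mem_union_right _ (mem_image_of_mem _ hσ)
    change w β • (if 0 ≤ β.length ∧ β = res σ β.length then (1 : ℝ) else 0) = 0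
    rw [if_neg h2, smul_zero]
  refine ⟨w, ?_, ?_, ?_, ?_⟩
  · intro β hβ
    rw [hw, Finsupp.support_filter, mem_filter] at hβ
    have := hys β hβ.1
    omega
  · rw [← hyn]
    exact jn_filter y hgood
  · have h1 : rem z F y = rem z F w + ∑ ν ∈ Q, rem z F (y.filter (fun β => β.take n = ν)) := by
      conv_lhs => rw [hdec]
      rw [map_add, map_sum]
    have h2 : rem z F w = z w := by
      rw [rem_apply, sum_eq_zero fun σ hσ => by rw [hwF σ hσ, mul_zero], sub_zero]
    rw [← h2]
    rw [abs_le] at hzQ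
    linarith [hzQ.2]
  · intro S hS
    obtain ⟨τ, a, c, hac, rfl⟩ := exists_pth hS
    rw [hw, sum_filter_apply]
    by_cases hν : res τ n ∈ Q
    · have h1 : ∑ β ∈ (pth τ a c).filter (fun β => β.take n ∉ Q), y β = 0 := by
        apply Finset.sum_eq_zero
        intro β hβ
        rw [mem_filter, mem_pth] at hβ
        apply hy0
        by_contra hlt
        push Not at hlt
        apply hβ.2
        rw [hβ.1.2.2, take_res_of_le τ hlt.le]
        exact hν
      rw [h1, abs_zero]
      exact hδ.le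
    · by_contra hgt
      push Not at hgt
      apply hν
      apply mem_union_left
      rw [hBad, mem_filter, mem_lev]
      refine ⟨length_res τ n, pth τ a c, pth_mem τ hac, ?_⟩
      have h1 : ∑ β ∈ (pth τ a c).filter (fun β => β.take n ∉ Q), y β =
          ∑ β ∈ (pth τ a c).filter (fun β => β.take n = res τ n), y β := by
        rw [sum_filter, sum_filter]
        refine sum_congr rfl fun β hβ => ?_
        rw [mem_pth] at hβ
        rcases le_or_gt β.length n with hl | hl
        · rw [hy0 β hl]; simp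
        · have e1 : β.take n = res τ n := by rw [hβ.2.2, take_res_of_le τ hl.le]
          rw [if_pos e1, e1, if_pos hν]
      rw [← h1]
      exact hgt

/-- **Structure theorem.**  Up to a small error a functional is, below some level, a finite
combination of branch functionals. -/
theorem struct (hM : 0 ≤ M) (hz : ∀ x, |z x| ≤ M * jn treeSys x) {ε : ℝ} (hε : 0 < ε)
    (F₀ : Finset (ℕ → Bool)) (n₀ : ℕ) :
    ∃ F, F₀ ⊆ F ∧ ∃ n, n₀ ≤ n ∧ Sep F n ∧ ∀ x : List Bool →₀ ℝ,
      (∀ β ∈ x.support, n < β.length) → |rem z F x| ≤ ε * jn treeSys x := by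
  by_contra hcon
  push Not at hcon
  have H : ∀ F, F₀ ⊆ F → ∀ n, n₀ ≤ n → Sep F n → ∃ x : List Bool →₀ ℝ,
      (∀ β ∈ x.support, n < β.length) ∧ ε * jn treeSys x < |rem z F x| := hcon
  have key : ∀ N : ℕ, ∃ (w : List Bool →₀ ℝ) (b : ℕ), (∀ β ∈ w.support, β.length ≤ b) ∧
      jn treeSys w ^ 2 ≤ 2 * N ∧ N * (ε / 2) ≤ z w := by
    intro N
    induction N with
    | zero =>
      refine ⟨0, 0, by simp, ?_, by simp⟩
      rw [jn_zero]; simp
    | succ N ih =>
      obtain ⟨w, b, hw1, hw2, hw3⟩ := ih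
      set K : ℝ := ((lev b).card : ℝ) with hK
      have hK0 : 0 ≤ K := Nat.cast_nonneg _
      have hW := jn_nonneg (𝒮 := treeSys) w
      set δ : ℝ := 1 / (2 * ((K + 1) * (jn treeSys w + 1))) with hδdef
      have hδ : 0 < δ := by positivity
      obtain ⟨x, hx1, hx2, hx3, hx4⟩ := block hM hz hε F₀ n₀ H b hδ
      obtain ⟨L, hL⟩ := exists_level x
      refine ⟨w + x, max b L, ?_, ?_, ?_⟩
      · intro β hβ
        rcases mem_union.1 (Finsupp.support_add hβ) with h1 | h1
        · exact (hw1 β h1).trans (le_max_left _ _)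
        · exact (hL β h1).trans (le_max_right _ _)
      · have hcross : ∀ P, Adm treeSys P →
            ∑ S ∈ P, (∑ a ∈ S, w a) * (∑ a ∈ S, x a) ≤ 1 / 2 := by
          intro P hP
          have h1 : ∀ S ∈ P, (∑ a ∈ S, w a) * (∑ a ∈ S, x a) ≤
              ∑ ν ∈ lev b, (if ν ∈ S then jn treeSys w * δ else 0) := by
            intro S hS
            by_cases hne : (∑ a ∈ S, w a) * (∑ a ∈ S, x a) = 0
            · rw [hne]
              exact sum_nonneg fun ν _ => by split_ifs <;> positivity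
            · obtain ⟨hne1, hne2⟩ := mul_ne_zero_iff.1 hne
              obtain ⟨β, hβ, hβw⟩ := exists_ne_zero_of_sum_ne_zero hne1
              obtain ⟨β', hβ', hβx⟩ := exists_ne_zero_of_sum_ne_zero hne2
              have g1 := hw1 β (Finsupp.mem_support_iff.2 hβw)
              have g2 := hx1 β' (Finsupp.mem_support_iff.2 hβx)
              have hSS := hP.1 S hS
              obtain ⟨τ, a, c, hac, hSe⟩ := exists_pth hSS
              have hmem : res τ b ∈ S := by
                rw [hSe, mem_pth] at hβ hβ'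
                rw [hSe, mem_pth, length_res]
                exact ⟨by omega, by omega, rfl⟩
              have h2 : (∑ a ∈ S, w a) * (∑ a ∈ S, x a) ≤ jn treeSys w * δ := by
                refine (le_abs_self _).trans ?_
                rw [abs_mul]
                exact mul_le_mul (seg_le w hSS) (hx4 S hSS) (abs_nonneg _) hW
              refine h2.trans ?_
              have h3 := single_le_sum (f := fun ν => if ν ∈ S then jn treeSys w * δ else 0)
                (fun ν _ => by split_ifs <;> positivity) (mem_lev.2 (length_res τ b))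
              simp only [if_pos hmem] at h3
              exact h3
          refine (sum_le_sum h1).trans ?_
          rw [sum_comm]
          have h2 : ∑ ν ∈ lev b, ∑ S ∈ P, (if ν ∈ S then jn treeSys w * δ else 0) ≤
              K * (jn treeSys w * δ) := by
            refine (sum_le_sum fun ν _ => one_le hP ν (by positivity)).trans ?_
            rw [sum_const, nsmul_eq_mul]
          refine h2.trans ?_
          rw [hδdef]
          rw [mul_one_div, mul_div_assoc', div_le_div_iff₀ (by positivity) (by norm_num)]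
          nlinarith [mul_nonneg hK0 hW]
        have := jn_add_sq w x (by norm_num : (0 : ℝ) ≤ 1 / 2) hcross
        have hx0 := jn_nonneg (𝒮 := treeSys) x
        push_cast
        nlinarith
      · rw [map_add]
        push_cast
        linarith
  have : (1 : ℝ) = 0 := key_ineq (M := M) (C := 2) (half_pos hε) fun N => by
    obtain ⟨w, b, -, h4, h5⟩ := key N
    exact ⟨z w, jn treeSys w, h5, (le_abs_self _).trans (hz w), jn_nonneg w, h4⟩
  exact one_ne_zero this

end

end Pool.Agent.X205.JT
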