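import Pool.Agent.X205.JT.Base

/-!
# The dyadic tree: segments, branches, branch functionals
-/

set_option autoImplicit false

namespace Pool.Agent.X205.JT

open Finset

/-- The segments `{β : α ≤ β ≤ γ}` of the dyadic tree of finite 0-1 sequences. -/
def treeSys : SegSys (List Bool) where
  sets := {S | ∃ α γ : List Bool, α <+: γ ∧ ∀ β, β ∈ S ↔ α <+: β ∧ β <+: γ}
  single_mem a := ⟨a, a, List.prefix_refl a, fun β => by
    rw [mem_singleton]
    constructor
    · rintro rfl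
      exact ⟨List.prefix_refl _, List.prefix_refl _⟩
    · rintro ⟨h1, h2⟩
      exact h2.eq_of_length (le_antisymm h2.length_le h1.length_le)⟩

/-- The intervals of `ℕ`. -/
def natSys : SegSys ℕ where
  sets := {S | ∃ a b : ℕ, a ≤ b ∧ S = Icc a b}
  single_mem a := ⟨a, a, le_rfl, by simp⟩

/-- the initial segment of length `n` of a branch -/
def res (σ : ℕ → Bool) (n : ℕ) : List Bool := (List.range n).map σ

@[simp] theorem length_res (σ : ℕ → Bool) (n : ℕ) : (res σ n).length = n := by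
  simp [res]

theorem take_res (σ : ℕ → Bool) (m n : ℕ) : (res σ n).take m = res σ (min m n) := by
  unfold res
  rw [← List.map_take, List.take_range]

theorem take_res_of_le (σ : ℕ → Bool) {m n : ℕ} (h : m ≤ n) : (res σ n).take m = res σ m := by
  rw [take_res, min_eq_left h]

theorem prefix_res_iff (σ : ℕ → Bool) (n : ℕ) (β : List Bool) :
    β <+: res σ n ↔ β.length ≤ n ∧ β = res σ β.length := by
  rw [List.prefix_iff_eq_take]
  constructor
  · intro h
    have h1 : β.length ≤ n := by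
      have := congrArg List.length h
      rw [List.length_take, length_res] at this
      omega
    refine ⟨h1, ?_⟩
    rw [take_res_of_le σ h1] at h
    exact h
  · rintro ⟨h1, h2⟩
    rw [take_res_of_le σ h1]
    exact h2

theorem res_prefix (σ : ℕ → Bool) {m n : ℕ} (h : m ≤ n) : res σ m <+: res σ n := by
  rw [prefix_res_iff, length_res]
  exact ⟨h, rfl⟩

theorem exists_res (γ : List Bool) : ∃ σ : ℕ → Bool, γ = res σ γ.length := by
  refine ⟨fun i => γ.getD i false, ?_⟩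
  apply List.ext_getElem
  · simp
  · intro i h1 h2
    simp [res, h1]

theorem res_eq_iff (σ τ : ℕ → Bool) (n : ℕ) : res σ n = res τ n ↔ ∀ i < n, σ i = τ i := by
  unfold res
  rw [List.map_inj_left]
  simp

theorem res_eq_of_le {σ τ : ℕ → Bool} {m n : ℕ} (h : m ≤ n) (hn : res σ n = res τ n) :
    res σ m = res τ m := by
  rw [res_eq_iff] at hn ⊢
  exact fun i hi => hn i (by omega)

/-- branches which agree at all levels are equal -/
theorem eq_of_res {σ τ : ℕ → Bool} (h : ∀ n, res σ n = res τ n) : σ = τ := by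
  funext i
  exact (res_eq_iff σ τ (i + 1)).1 (h (i + 1)) i (by omega)

theorem res_injective (σ : ℕ → Bool) : Function.Injective (res σ) := by
  intro m n h
  have := congrArg List.length h
  simpa using this

/-- the path segment of a branch -/
def pth (σ : ℕ → Bool) (a b : ℕ) : Finset (List Bool) := (Icc a b).image (res σ)

theorem mem_pth {σ : ℕ → Bool} {a b : ℕ} {β : List Bool} :
    β ∈ pth σ a b ↔ a ≤ β.length ∧ β.length ≤ b ∧ β = res σ β.length := by
  unfold pth
  rw [mem_image]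
  constructor
  · rintro ⟨l, hl, rfl⟩
    rw [mem_Icc] at hl
    rw [length_res]
    exact ⟨hl.1, hl.2, rfl⟩
  · rintro ⟨h1, h2, h3⟩
    exact ⟨β.length, mem_Icc.2 ⟨h1, h2⟩, h3.symm⟩

theorem sum_pth (x : List Bool → ℝ) (σ : ℕ → Bool) (a b : ℕ) :
    ∑ β ∈ pth σ a b, x β = ∑ l ∈ Icc a b, x (res σ l) := by
  unfold pth
  rw [sum_image]
  exact fun m _ n _ h => res_injective σ h

theorem pth_mem (σ : ℕ → Bool) {a b : ℕ} (h : a ≤ b) : pth σ a b ∈ treeSys.sets := by
  refine ⟨res σ a, res σ b, res_prefix σ h, fun β => ?_⟩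
  rw [mem_pth]
  constructor
  · rintro ⟨h1, h2, h3⟩
    rw [h3]
    exact ⟨res_prefix σ (by simpa using h1), res_prefix σ (by simpa using h2)⟩
  · rintro ⟨h1, h2⟩
    rw [prefix_res_iff] at h2
    refine ⟨?_, h2.1, h2.2⟩
    have := h1.length_le
    rwa [length_res] at this

theorem pth_mem_or (σ : ℕ → Bool) (a b : ℕ) : pth σ a b ∈ treeSys.sets ∨ pth σ a b = ∅ := by
  rcases le_or_gt a b with h | h
  · exact Or.inl (pth_mem σ h)
  · right
    unfold pth
    rw [Icc_eq_empty (by omega), image_empty]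

theorem exists_pth {S : Finset (List Bool)} (hS : S ∈ treeSys.sets) :
    ∃ (σ : ℕ → Bool) (a b : ℕ), a ≤ b ∧ S = pth σ a b := by
  obtain ⟨α, γ, hαγ, hS⟩ := hS
  obtain ⟨σ, hσ⟩ := exists_res γ
  refine ⟨σ, α.length, γ.length, hαγ.length_le, ?_⟩
  ext β
  rw [hS, mem_pth]
  rw [hσ] at hαγ
  rw [prefix_res_iff] at hαγ
  constructor
  · rintro ⟨h1, h2⟩
    refine ⟨h1.length_le, h2.length_le, ?_⟩
    rw [hσ, prefix_res_iff] at h2
    exact h2.2
  · rintro ⟨h1, h2, h3⟩
    constructor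
    · rw [hαγ.2, h3]
      exact res_prefix σ (by simpa using h1)
    · rw [hσ, h3]
      exact res_prefix σ (by simpa using h2)

theorem cvx_tree {p : List Bool → Prop} [DecidablePred p]
    (h : ∀ (σ : ℕ → Bool) (l₁ l l₂ : ℕ), l₁ ≤ l → l ≤ l₂ → p (res σ l₁) → p (res σ l₂) →
      p (res σ l)) : Cvx treeSys p := by
  intro S hS
  obtain ⟨σ, a, b, hab, rfl⟩ := exists_pth hS
  set T := (Icc a b).filter (fun l => p (res σ l)) with hT
  have hST : (pth σ a b).filter p = T.image (res σ) := by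
    unfold pth
    rw [filter_image]
  rcases T.eq_empty_or_nonempty with h0 | hne
  · right
    rw [hST, h0, image_empty]
  · left
    have hTI : T = Icc (T.min' hne) (T.max' hne) := by
      ext l
      rw [mem_Icc]
      constructor
      · intro hl
        exact ⟨T.min'_le l hl, T.le_max' l hl⟩
      · rintro ⟨h1, h2⟩
        have m1 := mem_filter.1 (T.min'_mem hne)
        have m2 := mem_filter.1 (T.max'_mem hne)
        rw [mem_Icc] at m1 m2
        exact mem_filter.2 ⟨mem_Icc.2 ⟨by omega, by omega⟩, h σ _ l _ h1 h2 m1.2 m2.2⟩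
    rw [hST, hTI]
    exact pth_mem σ (T.min'_le_max' hne)

/-- families of disjoint path segments -/
theorem bands (x : List Bool →₀ ℝ) {ι : Type} (R : Finset ι) (σ : ι → ℕ → Bool) (a b : ι → ℕ)
    (hd : ∀ k ∈ R, ∀ k' ∈ R, k ≠ k' → ∀ l, a k ≤ l → l ≤ b k → a k' ≤ l → l ≤ b k' →
      res (σ k) l ≠ res (σ k') l) :
    ∑ k ∈ R, (∑ l ∈ Icc (a k) (b k), x (res (σ k) l)) ^ 2 ≤ jn treeSys x ^ 2 := by
  have h := fam (𝒮 := treeSys) x R (fun k => pth (σ k) (a k) (b k))
    (fun k _ => pth_mem_or _ _ _) ?_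
  · simp only [sum_pth] at h
    exact h
  · intro k hk k' hk' hne
    rw [disjoint_left]
    intro β h1 h2
    rw [mem_pth] at h1 h2
    exact hd k hk k' hk' hne β.length h1.1 h1.2.1 h2.1 h2.2.1 (h1.2.2.symm.trans h2.2.2)

/-! ### Branch functionals -/

/-- the sum of `x` over the nodes of the branch `σ` of level at least `n` -/
noncomputable def bf (σ : ℕ → Bool) (n : ℕ) : (List Bool →₀ ℝ) →ₗ[ℝ] ℝ :=
  Finsupp.linearCombination ℝ
    (fun β : List Bool => if n ≤ β.length ∧ β = res σ β.length then (1 : ℝ) else 0)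

theorem bf_single (σ : ℕ → Bool) (n : ℕ) (β : List Bool) (r : ℝ) :
    bf σ n (Finsupp.single β r) = if n ≤ β.length ∧ β = res σ β.length then r else 0 := by
  unfold bf
  rw [Finsupp.linearCombination_single, smul_eq_mul]
  split_ifs <;> simp

theorem bf_eq (σ : ℕ → Bool) (n L : ℕ) (x : List Bool →₀ ℝ)
    (hx : ∀ β ∈ x.support, β.length ≤ L) :
    bf σ n x = ∑ l ∈ Icc n L, x (res σ l) := by
  unfold bf
  rw [Finsupp.linearCombination_apply, Finsupp.sum, ← sum_pth (fun β => x β)]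
  have h1 : ∀ β ∈ x.support, x β • (if n ≤ β.length ∧ β = res σ β.length then (1 : ℝ) else 0) =
      if β ∈ pth σ n L then x β else 0 := by
    intro β hβ
    by_cases h : n ≤ β.length ∧ β = res σ β.length
    · rw [if_pos h, if_pos (mem_pth.2 ⟨h.1, hx β hβ, h.2⟩), smul_eq_mul, mul_one]
    · rw [if_neg h, if_neg fun h' => h ⟨(mem_pth.1 h').1, (mem_pth.1 h').2.2⟩, smul_zero]
  rw [sum_congr rfl h1, ← sum_filter]
  apply sum_subset_zero_on_sdiff
  · intro β hβ
    exact (mem_filter.1 hβ).2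
  · intro β hβ
    rw [mem_sdiff, mem_filter, not_and, Finsupp.mem_support_iff] at hβ
    by_contra h
    exact hβ.2 h hβ.1
  · exact fun _ _ => rfl

theorem exists_level (x : List Bool →₀ ℝ) : ∃ L, ∀ β ∈ x.support, β.length ≤ L :=
  ⟨x.support.sup List.length, fun β hβ => le_sup (f := List.length) hβ⟩

theorem tails (x : List Bool →₀ ℝ) {ι : Type} (R : Finset ι) (σ : ι → ℕ → Bool) (n : ι → ℕ)
    (hd : ∀ k ∈ R, ∀ k' ∈ R, k ≠ k' → ∀ l, n k ≤ l → n k' ≤ l → res (σ k) l ≠ res (σ k') l) :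
    ∑ k ∈ R, (bf (σ k) (n k) x) ^ 2 ≤ jn treeSys x ^ 2 := by
  obtain ⟨L, hL⟩ := exists_level x
  have h : ∀ k ∈ R, (bf (σ k) (n k) x) ^ 2 = (∑ l ∈ Icc (n k) L, x (res (σ k) l)) ^ 2 :=
    fun k _ => by rw [bf_eq _ _ L x hL]
  rw [sum_congr rfl h]
  exact bands x R σ n (fun _ => L) fun k hk k' hk' hne l h1 _ h2 _ => hd k hk k' hk' hne l h1 h2

theorem bf_le (σ : ℕ → Bool) (n : ℕ) (x : List Bool →₀ ℝ) : |bf σ n x| ≤ jn treeSys x := by
  have h := tails x ({()} : Finset Unit) (fun _ => σ) (fun _ => n)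
    (fun _ _ _ _ hne => absurd rfl hne)
  rw [sum_singleton] at h
  exact abs_le_of_sq_le_sq h (jn_nonneg x)

/-- cutting below the support changes nothing -/
theorem bf_cut (σ : ℕ → Bool) {m n : ℕ} (x : List Bool →₀ ℝ)
    (hx : ∀ β ∈ x.support, m ≤ β.length) (hn : n ≤ m) : bf σ n x = bf σ m x := by
  unfold bf
  rw [Finsupp.linearCombination_apply, Finsupp.linearCombination_apply]
  refine Finsupp.sum_congr fun β hβ => ?_
  have h1 := hx β hβ
  have h2 : n ≤ β.length := hn.trans h1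
  simp only [h1, h2, true_and]

/-- above the support the functional vanishes -/
theorem bf_zero_of (σ : ℕ → Bool) {b n : ℕ} (x : List Bool →₀ ℝ)
    (hx : ∀ β ∈ x.support, β.length ≤ b) (hn : b < n) : bf σ n x = 0 := by
  rw [bf_eq σ n b x hx, Icc_eq_empty (by omega), sum_empty]

/-- at most one of the disjoint sets contains a given point -/
theorem one_le {X : Type} [DecidableEq X] {𝒮 : SegSys X} {P : Finset (Finset X)}
    (hP : Adm 𝒮 P) (a : X) {c : ℝ} (hc : 0 ≤ c) :
    ∑ S ∈ P, (if a ∈ S then c else 0) ≤ c := by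
  rw [← sum_filter, sum_const, nsmul_eq_mul]
  have h : (P.filter (fun S => a ∈ S)).card ≤ 1 := by
    rw [card_le_one]
    intro S hS S' hS'
    rw [mem_filter] at hS hS'
    by_contra hne
    exact (disjoint_left.1 (hP.2 S hS.1 S' hS'.1 hne)) hS.2 hS'.2
  have h2 : ((P.filter (fun S => a ∈ S)).card : ℝ) ≤ 1 := by exact_mod_cast h
  nlinarith

/-- expansion of the norm of a sum -/
theorem jn_add_sq {X : Type} {𝒮 : SegSys X} (w x : X →₀ ℝ) {C : ℝ} (hC : 0 ≤ C)
    (h : ∀ P, Adm 𝒮 P → ∑ S ∈ P, (∑ a ∈ S, w a) * (∑ a ∈ S, x a) ≤ C) :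
    jn 𝒮 (w + x) ^ 2 ≤ jn 𝒮 w ^ 2 + jn 𝒮 x ^ 2 + 2 * C := by
  apply jn_sq_le (by positivity)
  intro P hP
  have h1 : ∑ S ∈ P, (∑ a ∈ S, (w + x) a) ^ 2 = ∑ S ∈ P, (∑ a ∈ S, w a) ^ 2 +
      ∑ S ∈ P, (∑ a ∈ S, x a) ^ 2 + 2 * ∑ S ∈ P, (∑ a ∈ S, w a) * (∑ a ∈ S, x a) := by
    rw [mul_sum, ← sum_add_distrib, ← sum_add_distrib]
    refine sum_congr rfl fun S _ => ?_
    have : ∑ a ∈ S, (w + x) a = ∑ a ∈ S, w a + ∑ a ∈ S, x a := by
      rw [← sum_add_distrib]; rfl
    rw [this]; ring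
  rw [h1]
  linarith [le_jn (𝒮 := 𝒮) w hP, le_jn (𝒮 := 𝒮) x hP, h P hP]

end Pool.Agent.X205.JT
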