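import Pool.Agent.X205.JT.Seq

/-!
# Upper estimates for the approximating sequence
-/

set_option autoImplicit false

namespace Pool.Agent.X205.JT

open Finset

/-- classical decidable equality of branches -/
noncomputable local instance instDecBranch : DecidableEq (ℕ → Bool) := Classical.decEq _

theorem bf_tail (σ : ℕ → Bool) (n : ℕ) (x : List Bool →₀ ℝ) :
    bf σ 0 (x.filter (fun β => n < β.length)) = bf σ (n + 1) x := by
  obtain ⟨L, hL⟩ := exists_level x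
  rw [bf_eq σ (n + 1) L x hL, bf_eq σ 0 L _ (fun β hβ => hL β (by
    rw [Finsupp.support_filter, mem_filter] at hβ; exact hβ.1))]
  simp only [Finsupp.filter_apply, length_res]
  rw [← sum_filter]
  refine sum_congr ?_ fun _ _ => rfl
  ext l
  simp only [mem_filter, mem_Icc]
  omega

theorem bf_diff (σ : ℕ → Bool) {a b : ℕ} (hab : a ≤ b + 1) (x : List Bool →₀ ℝ) :
    bf σ a x - bf σ (b + 1) x = ∑ l ∈ Icc a b, x (res σ l) := by
  obtain ⟨L, hL⟩ := exists_level x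
  have hL' : ∀ β ∈ x.support, β.length ≤ max L b := fun β hβ => (hL β hβ).trans (le_max_left _ _)
  rw [bf_eq σ a _ x hL', bf_eq σ (b + 1) _ x hL']
  have h1 : Icc a (max L b) = Icc a b ∪ Icc (b + 1) (max L b) := by
    ext l
    simp only [mem_union, mem_Icc]
    omega
  have h2 : Disjoint (Icc a b) (Icc (b + 1) (max L b)) := by
    rw [disjoint_left]
    intro l h3 h4
    rw [mem_Icc] at h3 h4
    omega
  rw [h1, sum_union h2]
  ring

theorem cs_sq {ι : Type} (s : Finset ι) (a b : ι → ℝ) {A : ℝ} (hA : ∑ i ∈ s, a i ^ 2 ≤ A) :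
    (∑ i ∈ s, a i * b i) ^ 2 ≤ A * ∑ i ∈ s, b i ^ 2 :=
  (sum_mul_sq_le_sq_mul_sq s a b).trans
    (mul_le_mul_of_nonneg_right hA (sum_nonneg fun _ _ => sq_nonneg _))

section

variable {W : Type} [NormedAddCommGroup W] [NormedSpace ℝ W]
  {R : W →ₗᵢ[ℝ] StrongDual ℝ (JSp treeSys)} {Ψ : StrongDual ℝ (StrongDual ℝ W)}
  {f : StrongDual ℝ W} {F₀ : Finset (ℕ → Bool)} {e : ℕ → ℝ} (s : AppSeq R Ψ f F₀ e)

namespace AppSeq

/-- the difference functionals -/
noncomputable def zz (i : ℕ) : (List Bool →₀ ℝ) →ₗ[ℝ] ℝ := ofDual (R (s.y i)) - y0 R Ψ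

theorem zz_le (i : ℕ) (x : List Bool →₀ ℝ) : |s.zz i x| ≤ (2 * ‖Ψ‖ + 1) * jn treeSys x := by
  unfold zz
  rw [LinearMap.sub_apply]
  have h1 := fn_le R (s.y i) x
  have h2 := y0_le R Ψ x
  have h3 := s.norm_y i
  have h4 := jn_nonneg (𝒮 := treeSys) x
  refine (abs_sub _ _).trans ?_
  nlinarith

theorem n_lt {i j : ℕ} (h : i < j) : s.n i < s.m j := by
  induction j with
  | zero => omega
  | succ j ih =>
    rw [s.m_succ]
    rcases Nat.lt_succ_iff_lt_or_eq.1 h with h1 | h1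
    · have := ih h1
      have := s.m_le j
      omega
    · rw [h1]; omega

theorem n_mono {i j : ℕ} (h : i ≤ j) : s.n i ≤ s.n j := by
  rcases h.eq_or_lt with h | h
  · rw [h]
  · exact (s.n_lt h).le.trans (s.m_le j)

theorem le_m (i : ℕ) : i ≤ s.m i := by
  induction i with
  | zero => exact Nat.zero_le _
  | succ i ih =>
    rw [s.m_succ]
    have := s.m_le i
    omega

theorem G_mono {i j : ℕ} (h : i ≤ j) : s.G i ⊆ s.G j := by
  induction j with
  | zero =>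
    have : i = 0 := by omega
    rw [this]
  | succ j ih =>
    rcases Nat.of_le_succ h with h1 | h1
    · exact (ih h1).trans (s.G_sub j)
    · rw [h1]

/-- the middle band -/
noncomputable def band (i : ℕ) (x : List Bool →₀ ℝ) : List Bool →₀ ℝ :=
  x.filter (fun β => s.m i < β.length ∧ β.length ≤ s.n i)

/-- the constant part -/
noncomputable def B (i : ℕ) (x : List Bool →₀ ℝ) : ℝ :=
  ∑ σ ∈ s.G (i + 1), tt R Ψ σ * bf σ (s.n i + 1) x

/-- the moving part -/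
noncomputable def Vv (i : ℕ) (x : List Bool →₀ ℝ) : ℝ :=
  ∑ σ ∈ s.G (i + 1) \ s.G i, (th (s.zz i) σ - tt R Ψ σ) * bf σ (s.n i + 1) x

/-- the small part -/
noncomputable def rr (i : ℕ) (x : List Bool →₀ ℝ) : ℝ :=
  rem (s.zz i) (s.G (i + 1)) (x.filter (fun β => s.n i < β.length))

theorem decomp (i : ℕ) (x : List Bool →₀ ℝ) :
    s.zz i x = s.zz i (s.band i x) + s.rr i x + s.B i x + s.Vv i x := by
  have h1 : x = x.filter (fun β => β.length ≤ s.m i) + s.band i x +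
      x.filter (fun β => s.n i < β.length) := by
    ext β
    unfold band
    simp only [Finsupp.add_apply, Finsupp.filter_apply]
    have := s.m_le i
    by_cases c1 : β.length ≤ s.m i
    · rw [if_pos c1, if_neg (by omega), if_neg (by omega), add_zero, add_zero]
    · by_cases c2 : β.length ≤ s.n i
      · rw [if_neg c1, if_pos (by omega), if_neg (by omega), add_zero, zero_add]
      · rw [if_neg c1, if_neg (by omega), if_pos (by omega), add_zero, zero_add]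
  have h2 : s.zz i (x.filter (fun β => β.length ≤ s.m i)) = 0 := by
    apply s.zero i
    intro β hβ
    rw [Finsupp.support_filter, mem_filter] at hβ
    exact hβ.2
  have h3 : s.zz i (x.filter (fun β => s.n i < β.length)) = s.rr i x + s.B i x + s.Vv i x := by
    unfold rr
    rw [rem_apply]
    have h4 : ∑ σ ∈ s.G (i + 1), th (s.zz i) σ * bf σ 0 (x.filter (fun β => s.n i < β.length)) =
        s.B i x + s.Vv i x := by
      simp only [bf_tail]
      unfold B Vv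
      have h5 : ∑ σ ∈ s.G (i + 1) \ s.G i, (th (s.zz i) σ - tt R Ψ σ) * bf σ (s.n i + 1) x =
          ∑ σ ∈ s.G (i + 1), (th (s.zz i) σ - tt R Ψ σ) * bf σ (s.n i + 1) x := by
        apply sum_subset sdiff_subset
        intro σ hσ hσ'
        have hσG : σ ∈ s.G i := by
          by_contra hno
          exact hσ' (mem_sdiff.2 ⟨hσ, hno⟩)
        have : th (s.zz i) σ = tt R Ψ σ := s.th_z i σ hσG
        rw [this, sub_self, zero_mul]
      rw [h5, ← sum_add_distrib]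
      exact sum_congr rfl fun σ _ => by ring
    linarith
  conv_lhs => rw [h1]
  rw [map_add, map_add, h2, h3]
  ring

theorem cvx_band (a b : ℕ) : Cvx treeSys (fun β : List Bool => a < β.length ∧ β.length ≤ b) := by
  apply cvx_tree
  intro σ l₁ l l₂ h1 h2 g1 g2
  rw [length_res] at *
  omega

theorem cvx_gt (a : ℕ) : Cvx treeSys (fun β : List Bool => a < β.length) := by
  apply cvx_tree
  intro σ l₁ l l₂ h1 h2 g1 g2
  rw [length_res] at *
  omega

theorem sum_band (x : List Bool →₀ ℝ) (N : ℕ) :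
    ∑ i ∈ range N, jn treeSys (s.band i x) ^ 2 ≤ jn treeSys x ^ 2 := by
  have key : ∀ N, ∑ i ∈ range N, jn treeSys (s.band i x) ^ 2 +
      jn treeSys (x.filter (fun β => s.m N < β.length ∨ N = 0)) ^ 2 ≤ jn treeSys x ^ 2 := by
    intro N
    induction N with
    | zero =>
      rw [sum_range_zero, zero_add]
      have : x.filter (fun β => s.m 0 < β.length ∨ 0 = 0) = x := by
        rw [Finsupp.filter_eq_self_iff]
        intro β _
        right
        rfl
      rw [this]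
    | succ N ih =>
      rw [sum_range_succ]
      set w := x.filter (fun β => s.m N < β.length ∨ N = 0) with hw
      have h1 := jn_filter_two (𝒮 := treeSys) w (cvx_band (s.m N) (s.n N)) (cvx_gt (s.m (N + 1)))
        (fun β hβ hβ' => by
          have := s.m_succ N
          omega)
      have h2 : w.filter (fun β => s.m N < β.length ∧ β.length ≤ s.n N) = s.band N x := by
        ext β
        rw [hw]
        unfold band
        simp only [Finsupp.filter_apply]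
        by_cases c : s.m N < β.length ∧ β.length ≤ s.n N
        · rw [if_pos c, if_pos c, if_pos (Or.inl c.1)]
        · rw [if_neg c, if_neg c]
      have h3 : w.filter (fun β => s.m (N + 1) < β.length) =
          x.filter (fun β => s.m (N + 1) < β.length ∨ N + 1 = 0) := by
        ext β
        rw [hw]
        simp only [Finsupp.filter_apply]
        have h4 := s.m_succ N
        have h5 := s.m_le N
        by_cases c : s.m (N + 1) < β.length
        · rw [if_pos c, if_pos (Or.inl c), if_pos (Or.inl (by omega))]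
        · rw [if_neg c, if_neg (by omega)]
      rw [h2, h3] at h1
      linarith
  have h := key N
  have := sq_nonneg (jn treeSys (x.filter (fun β => s.m N < β.length ∨ N = 0)))
  linarith

theorem sum_zband (x : List Bool →₀ ℝ) (N : ℕ) :
    ∑ i ∈ range N, (s.zz i (s.band i x)) ^ 2 ≤ (2 * ‖Ψ‖ + 1) ^ 2 * jn treeSys x ^ 2 := by
  have h1 : ∀ i, (s.zz i (s.band i x)) ^ 2 ≤ (2 * ‖Ψ‖ + 1) ^ 2 * jn treeSys (s.band i x) ^ 2 := by
    intro i
    rw [← sq_abs, ← mul_pow]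
    exact pow_le_pow_left₀ (abs_nonneg _) (s.zz_le i _) 2
  refine (sum_le_sum fun i _ => h1 i).trans ?_
  rw [← mul_sum]
  exact mul_le_mul_of_nonneg_left (s.sum_band x N) (sq_nonneg _)

theorem rr_le (i : ℕ) (x : List Bool →₀ ℝ) (he : ∀ i, 0 ≤ e i) :
    |s.rr i x| ≤ e i * jn treeSys x := by
  refine (s.rem_z i _ fun β hβ => ?_).trans (mul_le_mul_of_nonneg_left
    (jn_filter x (cvx_gt (s.n i))) (he i))
  rw [Finsupp.support_filter, mem_filter] at hβ
  exact hβ.2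

theorem sum_Vv (x : List Bool →₀ ℝ) (I : Finset ℕ) :
    ∑ i ∈ I, (s.Vv i x) ^ 2 ≤ (2 * (2 * ‖Ψ‖ + 1) ^ 2 + 2 * (2 * ‖Ψ‖) ^ 2) * jn treeSys x ^ 2 := by
  have h1 : ∀ i, (s.Vv i x) ^ 2 ≤ (2 * (2 * ‖Ψ‖ + 1) ^ 2 + 2 * (2 * ‖Ψ‖) ^ 2) *
      ∑ σ ∈ s.G (i + 1) \ s.G i, (bf σ (s.n i + 1) x) ^ 2 := by
    intro i
    apply cs_sq
    have e1 := sum_th_sq (by positivity) (s.zz_le i) (s.G (i + 1) \ s.G i)
    have e2 := sum_tt_sq R Ψ (s.G (i + 1) \ s.G i)
    calc ∑ σ ∈ s.G (i + 1) \ s.G i, (th (s.zz i) σ - tt R Ψ σ) ^ 2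
        ≤ ∑ σ ∈ s.G (i + 1) \ s.G i, (2 * th (s.zz i) σ ^ 2 + 2 * tt R Ψ σ ^ 2) :=
          sum_le_sum fun σ _ => by nlinarith [sq_nonneg (th (s.zz i) σ + tt R Ψ σ)]
      _ = 2 * ∑ σ ∈ s.G (i + 1) \ s.G i, th (s.zz i) σ ^ 2 +
          2 * ∑ σ ∈ s.G (i + 1) \ s.G i, tt R Ψ σ ^ 2 := by
          rw [sum_add_distrib, ← mul_sum, ← mul_sum]
      _ ≤ _ := by linarith
  refine (sum_le_sum fun i _ => h1 i).trans ?_
  rw [← mul_sum]
  apply mul_le_mul_of_nonneg_left _ (by positivity)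
  have h2 := tails x (I.sigma fun i => s.G (i + 1) \ s.G i) (fun k => k.2)
    (fun k => s.n k.1 + 1) ?_
  · rw [sum_sigma] at h2
    exact h2
  · rintro ⟨i, σ⟩ hk ⟨i', σ'⟩ hk' hne l hl hl'
    simp only [mem_sigma, mem_sdiff] at hk hk'
    dsimp only at hl hl' ⊢
    -- the later index separates
    have main : ∀ i i' : ℕ, ∀ σ σ' : ℕ → Bool, i < i' → σ ∈ s.G (i + 1) →
        σ' ∈ s.G (i' + 1) → σ' ∉ s.G i' → s.n i' + 1 ≤ l → res σ l ≠ res σ' l := by
      intro i i' σ σ' hii hσ hσ' hσ'n hl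
      have e1 : σ ∈ s.G i' := s.G_mono hii hσ
      have e2 : σ ≠ σ' := fun h => hσ'n (h ▸ e1)
      exact ((s.sep i').mono (by omega)) σ (s.G_sub i' e1) σ' hσ' e2
    rcases lt_trichotomy i i' with h | h | h
    · exact main i i' σ σ' h hk.2.1 hk'.2.1 hk'.2.2 hl'
    · subst h
      have e2 : σ ≠ σ' := fun h => hne (by rw [h])
      exact ((s.sep i).mono (by omega)) σ hk.2.1 σ' hk'.2.1 e2
    · exact fun heq => main i' i σ' σ h hk'.2.1 hk.2.1 hk.2.2 hl heq.symm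

/-- the first upper estimate -/
theorem upA (he : ∀ i, 0 ≤ e i) {E : ℝ} (hE : ∀ N, ∑ i ∈ range N, e i ^ 2 ≤ E)
    (x : List Bool →₀ ℝ) (N : ℕ) :
    ∑ i ∈ range N, (s.zz i x - s.B i x) ^ 2 ≤
      3 * ((2 * ‖Ψ‖ + 1) ^ 2 + E + (2 * (2 * ‖Ψ‖ + 1) ^ 2 + 2 * (2 * ‖Ψ‖) ^ 2)) *
      jn treeSys x ^ 2 := by
  have h1 : ∀ i, (s.zz i x - s.B i x) ^ 2 ≤ 3 * ((s.zz i (s.band i x)) ^ 2 + (s.rr i x) ^ 2 +
      (s.Vv i x) ^ 2) := by
    intro i
    have h2 := s.decomp i x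
    have h3 : s.zz i x - s.B i x = s.zz i (s.band i x) + s.rr i x + s.Vv i x := by linarith
    rw [h3]
    nlinarith [sq_nonneg (s.zz i (s.band i x) - s.rr i x), sq_nonneg (s.rr i x - s.Vv i x),
      sq_nonneg (s.zz i (s.band i x) - s.Vv i x)]
  refine (sum_le_sum fun i _ => h1 i).trans ?_
  rw [← mul_sum, sum_add_distrib, sum_add_distrib]
  have h2 := s.sum_zband x N
  have h3 := s.sum_Vv x (range N)
  have h4 : ∑ i ∈ range N, (s.rr i x) ^ 2 ≤ E * jn treeSys x ^ 2 := by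
    have h5 : ∀ i, (s.rr i x) ^ 2 ≤ e i ^ 2 * jn treeSys x ^ 2 := by
      intro i
      rw [← sq_abs, ← mul_pow]
      exact pow_le_pow_left₀ (abs_nonneg _) (s.rr_le i x he) 2
    refine (sum_le_sum fun i _ => h5 i).trans ?_
    rw [← sum_mul]
    exact mul_le_mul_of_nonneg_right (hE N) (sq_nonneg _)
  nlinarith

/-- the second upper estimate -/
theorem upB {ι : Type} (J : Finset ι) (p q : ι → ℕ) (hpq : ∀ j ∈ J, p j < q j)
    (hJ : ∀ j ∈ J, ∀ j' ∈ J, j ≠ j' → q j ≤ p j' ∨ q j' ≤ p j) (x : List Bool →₀ ℝ) :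
    ∑ j ∈ J, (s.B (p j) x - s.B (q j) x) ^ 2 ≤ 4 * (2 * ‖Ψ‖) ^ 2 * jn treeSys x ^ 2 := by
  set D1 : ι → ℝ := fun j => ∑ σ ∈ s.G (p j + 1), tt R Ψ σ *
    ∑ l ∈ Icc (s.n (p j) + 1) (s.n (q j)), x (res σ l) with hD1
  set D2 : ι → ℝ := fun j => ∑ σ ∈ s.G (q j + 1) \ s.G (p j + 1), tt R Ψ σ *
    bf σ (s.n (q j) + 1) x with hD2
  have h1 : ∀ j ∈ J, s.B (p j) x - s.B (q j) x = D1 j - D2 j := by
    intro j hj
    have hsub : s.G (p j + 1) ⊆ s.G (q j + 1) := s.G_mono (by have := hpq j hj; omega)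
    have e1 : s.B (q j) x = ∑ σ ∈ s.G (p j + 1), tt R Ψ σ * bf σ (s.n (q j) + 1) x + D2 j := by
      have e0 := sum_sdiff (f := fun σ => tt R Ψ σ * bf σ (s.n (q j) + 1) x) hsub
      change ∑ σ ∈ s.G (q j + 1), tt R Ψ σ * bf σ (s.n (q j) + 1) x = _ +
        ∑ σ ∈ s.G (q j + 1) \ s.G (p j + 1), tt R Ψ σ * bf σ (s.n (q j) + 1) x
      rw [← e0]
      exact add_comm _ _
    have e2 : D1 j = ∑ σ ∈ s.G (p j + 1), tt R Ψ σ * bf σ (s.n (p j) + 1) x -
        ∑ σ ∈ s.G (p j + 1), tt R Ψ σ * bf σ (s.n (q j) + 1) x := by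
      rw [hD1, ← sum_sub_distrib]
      refine sum_congr rfl fun σ _ => ?_
      have hn := s.n_mono (hpq j hj).le
      rw [← bf_diff σ (by omega) x]
      ring
    rw [e1, e2]
    unfold B
    ring
  have h2 : ∀ j ∈ J, (s.B (p j) x - s.B (q j) x) ^ 2 ≤ 2 * D1 j ^ 2 + 2 * D2 j ^ 2 := by
    intro j hj
    rw [h1 j hj]
    nlinarith [sq_nonneg (D1 j + D2 j)]
  have h3 : ∑ j ∈ J, D1 j ^ 2 ≤ (2 * ‖Ψ‖) ^ 2 * jn treeSys x ^ 2 := by
    have e1 : ∀ j ∈ J, D1 j ^ 2 ≤ (2 * ‖Ψ‖) ^ 2 * ∑ σ ∈ s.G (p j + 1),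
        (∑ l ∈ Icc (s.n (p j) + 1) (s.n (q j)), x (res σ l)) ^ 2 :=
      fun j _ => cs_sq _ _ _ (sum_tt_sq R Ψ _)
    refine (sum_le_sum e1).trans ?_
    rw [← mul_sum]
    apply mul_le_mul_of_nonneg_left _ (by positivity)
    have e2 := bands x (J.sigma fun j => s.G (p j + 1)) (fun k => k.2)
      (fun k => s.n (p k.1) + 1) (fun k => s.n (q k.1)) ?_
    · rw [sum_sigma] at e2
      exact e2
    · rintro ⟨j, σ⟩ hk ⟨j', σ'⟩ hk' hne l hl1 hl2 hl1' hl2'
      simp only [mem_sigma] at hk hk'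
      dsimp only at hl1 hl2 hl1' hl2' ⊢
      by_cases hjj : j = j'
      · subst hjj
        have e2 : σ ≠ σ' := fun h => hne (by rw [h])
        exact ((s.sep (p j)).mono (by omega)) σ hk.2 σ' hk'.2 e2
      · exfalso
        rcases hJ j hk.1 j' hk'.1 hjj with h | h
        · have := s.n_mono h
          omega
        · have := s.n_mono h
          omega
  have h4 : ∑ j ∈ J, D2 j ^ 2 ≤ (2 * ‖Ψ‖) ^ 2 * jn treeSys x ^ 2 := by
    have e1 : ∀ j ∈ J, D2 j ^ 2 ≤ (2 * ‖Ψ‖) ^ 2 * ∑ σ ∈ s.G (q j + 1) \ s.G (p j + 1),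
        (bf σ (s.n (q j) + 1) x) ^ 2 :=
      fun j _ => cs_sq _ _ _ (sum_tt_sq R Ψ _)
    refine (sum_le_sum e1).trans ?_
    rw [← mul_sum]
    apply mul_le_mul_of_nonneg_left _ (by positivity)
    have e2 := tails x (J.sigma fun j => s.G (q j + 1) \ s.G (p j + 1)) (fun k => k.2)
      (fun k => s.n (q k.1) + 1) ?_
    · rw [sum_sigma] at e2
      exact e2
    · rintro ⟨j, σ⟩ hk ⟨j', σ'⟩ hk' hne l hl hl'
      simp only [mem_sigma, mem_sdiff] at hk hk'
      dsimp only at hl hl' ⊢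
      have main : ∀ j j' : ι, ∀ σ σ' : ℕ → Bool, j' ∈ J → q j ≤ p j' → σ ∈ s.G (q j + 1) →
          σ' ∈ s.G (q j' + 1) → σ' ∉ s.G (p j' + 1) → s.n (q j') + 1 ≤ l →
          res σ l ≠ res σ' l := by
        intro j j' σ σ' hj' hqp hσ hσ' hσ'n hl
        have e1 : σ ∈ s.G (p j' + 1) := s.G_mono (by omega) hσ
        have e2 : σ ≠ σ' := fun h => hσ'n (h ▸ e1)
        have e3 : σ ∈ s.G (q j' + 1) := s.G_mono (by have := hpq j' hj'; omega) e1
        exact ((s.sep (q j')).mono (by omega)) σ e3 σ' hσ' e2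
      by_cases hjj : j = j'
      · subst hjj
        have e2 : σ ≠ σ' := fun h => hne (by rw [h])
        exact ((s.sep (q j)).mono (by omega)) σ hk.2.1 σ' hk'.2.1 e2
      · rcases hJ j hk.1 j' hk'.1 hjj with h | h
        · exact main j j' σ σ' hk'.1 h hk.2.1 hk'.2.1 hk'.2.2 hl'
        · exact fun heq => main j' j σ' σ hk.1 h hk'.2.1 hk.2.1 hk.2.2 hl heq.symm
  refine (sum_le_sum h2).trans ?_
  rw [sum_add_distrib, ← mul_sum, ← mul_sum]
  linarith

/-- the combined upper estimate -/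
theorem up (he : ∀ i, 0 ≤ e i) {E : ℝ} (hE : ∀ N, ∑ i ∈ range N, e i ^ 2 ≤ E) :
    ∃ C, 0 ≤ C ∧ ∀ {ι : Type} (J : Finset ι) (p q : ι → ℕ), (∀ j ∈ J, p j < q j) →
    (∀ j ∈ J, ∀ j' ∈ J, j ≠ j' → q j ≤ p j' ∨ q j' ≤ p j) → ∀ x : List Bool →₀ ℝ,
    ∑ j ∈ J, (s.zz (p j) x - s.zz (q j) x) ^ 2 ≤ C * jn treeSys x ^ 2 := by
  set CA := 3 * ((2 * ‖Ψ‖ + 1) ^ 2 + E + (2 * (2 * ‖Ψ‖ + 1) ^ 2 + 2 * (2 * ‖Ψ‖) ^ 2)) with hCA
  have hE0 : 0 ≤ E := by
    have := hE 0
    rwa [sum_range_zero] at this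
  refine ⟨3 * (CA + CA + 4 * (2 * ‖Ψ‖) ^ 2), by positivity, ?_⟩
  intro ι J p q hpq hJ x
  classical
  have h1 : ∀ j, (s.zz (p j) x - s.zz (q j) x) ^ 2 ≤ 3 * ((s.zz (p j) x - s.B (p j) x) ^ 2 +
      (s.zz (q j) x - s.B (q j) x) ^ 2 + (s.B (p j) x - s.B (q j) x) ^ 2) := by
    intro j
    set a := s.zz (p j) x - s.B (p j) x
    set b := s.zz (q j) x - s.B (q j) x
    set c := s.B (p j) x - s.B (q j) x
    have h2 : s.zz (p j) x - s.zz (q j) x = a - b + c := by ring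
    rw [h2]
    nlinarith [sq_nonneg (a + b), sq_nonneg (a - c), sq_nonneg (b + c)]
  refine (sum_le_sum fun j _ => h1 j).trans ?_
  rw [← mul_sum, sum_add_distrib, sum_add_distrib]
  have hinj : ∀ r : ι → ℕ, (∀ j ∈ J, ∀ j' ∈ J, r j = r j' → j = j') →
      ∑ j ∈ J, (s.zz (r j) x - s.B (r j) x) ^ 2 ≤ CA * jn treeSys x ^ 2 := by
    intro r hr
    have e1 : ∑ j ∈ J, (s.zz (r j) x - s.B (r j) x) ^ 2 =
        ∑ i ∈ J.image r, (s.zz i x - s.B i x) ^ 2 := by
      rw [sum_image]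
      intro j hj j' hj' h
      exact hr j hj j' hj' h
    rw [e1]
    obtain ⟨N, hN⟩ : ∃ N, J.image r ⊆ range N := by
      refine ⟨(J.image r).sup id + 1, fun i hi => ?_⟩
      rw [mem_range]
      have := le_sup (f := id) hi
      simp only [id] at this
      omega
    exact (sum_le_sum_of_subset_of_nonneg hN fun _ _ _ => sq_nonneg _).trans (s.upA he hE x N)
  have h2 := hinj p (by
    intro j hj j' hj' h
    by_contra hne
    have e1 := hpq j hj
    have e2 := hpq j' hj'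
    rcases hJ j hj j' hj' hne with h3 | h3 <;> omega)
  have h3 := hinj q (by
    intro j hj j' hj' h
    by_contra hne
    have e1 := hpq j hj
    have e2 := hpq j' hj'
    rcases hJ j hj j' hj' hne with h3 | h3 <;> omega)
  have h4 := s.upB J p q hpq hJ x
  nlinarith

end AppSeq

end

end Pool.Agent.X205.JT
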