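import Pool.Agent.X205.JT.Tree

/-!
# Functionals on the James tree space: limits along branches
-/

set_option autoImplicit false

namespace Pool.Agent.X205.JT

open Finset Filter Topology

theorem jn_single_le {X : Type} {𝒮 : SegSys X} (a : X) (r : ℝ) :
    jn 𝒮 (Finsupp.single a r) ≤ |r| := by
  classical
  apply jn_le (abs_nonneg r)
  intro P hP
  have h1 : ∀ S ∈ P, (∑ b ∈ S, (Finsupp.single a r) b) ^ 2 = if a ∈ S then r ^ 2 else 0 := by
    intro S _
    simp only [Finsupp.single_apply]
    rw [sum_ite_eq]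
    split_ifs <;> simp
  rw [sum_congr rfl h1, sq_abs]
  exact one_le hP a (sq_nonneg r)

theorem key_ineq {η M A : ℝ} {C : ℝ} (hη : 0 < η)
    (h : ∀ N : ℕ, ∃ v w : ℝ, N * η ≤ v ∧ v ≤ M * w ∧ 0 ≤ w ∧ w ^ 2 ≤ C * N) : A = 0 := by
  exfalso
  obtain ⟨N, hN⟩ := exists_nat_gt (M ^ 2 * C / η ^ 2)
  obtain ⟨v, w, h1, h2, h3, h4⟩ := h (N + 1)
  have hN0 : (0 : ℝ) ≤ N := Nat.cast_nonneg N
  push_cast at h1 h4
  have h5 : ((N : ℝ) + 1) * η ≤ M * w := h1.trans h2
  have h6 : (((N : ℝ) + 1) * η) ^ 2 ≤ (M * w) ^ 2 := pow_le_pow_left₀ (by positivity) h5 2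
  have h7 : (M * w) ^ 2 ≤ M ^ 2 * (C * (N + 1)) := by
    rw [mul_pow]; exact mul_le_mul_of_nonneg_left h4 (sq_nonneg _)
  have h8 : ((N : ℝ) + 1) * (((N : ℝ) + 1) * η ^ 2) ≤ ((N : ℝ) + 1) * (M ^ 2 * C) := by
    nlinarith
  have h9 : ((N : ℝ) + 1) * η ^ 2 ≤ M ^ 2 * C := le_of_mul_le_mul_left h8 (by positivity)
  rw [div_lt_iff₀ (by positivity)] at hN
  nlinarith [sq_nonneg η]

section

variable {z : (List Bool →₀ ℝ) →ₗ[ℝ] ℝ} {M : ℝ}

/-- zero-sum blocks along a branch -/
theorem ZB (hz : ∀ x, |z x| ≤ M * jn treeSys x) (σ : ℕ → Bool) {η : ℝ} (hη : 0 < η)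
    (h : ∀ n, ∃ x : List Bool →₀ ℝ, (∀ β ∈ x.support, res σ n <+: β) ∧ bf σ 0 x = 0 ∧
      jn treeSys x ≤ 2 ∧ η ≤ z x) : False := by
  have key : ∀ N : ℕ, ∃ (w : List Bool →₀ ℝ) (b : ℕ), (∀ β ∈ w.support, β.length ≤ b) ∧
      bf σ 0 w = 0 ∧ (∀ a, |bf σ a w| ≤ 2) ∧ jn treeSys w ^ 2 ≤ 12 * N ∧ N * η ≤ z w := by
    intro N
    induction N with
    | zero =>
      refine ⟨0, 0, by simp, by simp, by simp, ?_, by simp⟩
      rw [jn_zero]; simp
    | succ N ih =>
      obtain ⟨w, b, hw1, hw2, hw3, hw4, hw5⟩ := ih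
      set n := b + 1 with hn
      obtain ⟨x, hx1, hx2, hx3, hx4⟩ := h n
      have hxlen : ∀ β ∈ x.support, n ≤ β.length := by
        intro β hβ
        have := (hx1 β hβ).length_le
        rwa [length_res] at this
      obtain ⟨L, hL⟩ := exists_level x
      refine ⟨w + x, max b L, ?_, ?_, ?_, ?_, ?_⟩
      · intro β hβ
        rcases mem_union.1 (Finsupp.support_add hβ) with h1 | h1
        · exact (hw1 β h1).trans (le_max_left _ _)
        · exact (hL β h1).trans (le_max_right _ _)
      · rw [map_add, hw2, hx2, add_zero]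
      · intro a
        rw [map_add]
        rcases le_or_gt a n with ha | ha
        · have h1 : bf σ a x = 0 := by
            rw [bf_cut σ x hxlen ha, ← bf_cut σ x hxlen (Nat.zero_le n), hx2]
          rw [h1, add_zero]
          exact hw3 a
        · rw [bf_zero_of σ w hw1 (by omega), zero_add]
          exact (bf_le σ a x).trans hx3
      · have hcross : ∀ P, Adm treeSys P →
            ∑ S ∈ P, (∑ a ∈ S, w a) * (∑ a ∈ S, x a) ≤ 4 := by
          intro P hP
          refine le_trans (sum_le_sum fun S hS => ?_) (one_le hP (res σ n) (by norm_num))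
          obtain ⟨τ, a, c, hac, rfl⟩ := exists_pth (hP.1 S hS)
          by_cases hmem : res σ n ∈ pth τ a c
          · rw [if_pos hmem]
            rw [mem_pth, length_res] at hmem
            obtain ⟨m1, m2, m3⟩ := hmem
            have hws : ∑ β ∈ pth τ a c, w β = bf σ a w := by
              rw [sum_pth (fun β => w β), bf_eq σ a c w (fun β hβ => (hw1 β hβ).trans (by omega))]
              refine sum_congr rfl fun l _ => ?_
              rcases le_or_gt l n with hl | hl
              · rw [res_eq_of_le hl m3]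
              · have e1 : w (res τ l) = 0 := by
                  by_contra hne
                  have := hw1 _ (Finsupp.mem_support_iff.2 hne)
                  rw [length_res] at this
                  omega
                have e2 : w (res σ l) = 0 := by
                  by_contra hne
                  have := hw1 _ (Finsupp.mem_support_iff.2 hne)
                  rw [length_res] at this
                  omega
                rw [e1, e2]
            have h1 : |∑ β ∈ pth τ a c, w β| ≤ 2 := by rw [hws]; exact hw3 a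
            have h2 : |∑ β ∈ pth τ a c, x β| ≤ 2 :=
              (seg_le (𝒮 := treeSys) x (pth_mem τ hac)).trans hx3
            refine (le_abs_self _).trans ?_
            rw [abs_mul]
            nlinarith [abs_nonneg (∑ β ∈ pth τ a c, w β), abs_nonneg (∑ β ∈ pth τ a c, x β)]
          · rw [if_neg hmem]
            apply le_of_eq
            by_contra hne
            obtain ⟨hne1, hne2⟩ := mul_ne_zero_iff.1 hne
            obtain ⟨β, hβ, hβw⟩ := exists_ne_zero_of_sum_ne_zero hne1
            obtain ⟨β', hβ', hβx⟩ := exists_ne_zero_of_sum_ne_zero hne2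
            apply hmem
            have g1 := hw1 β (Finsupp.mem_support_iff.2 hβw)
            have g2 := hx1 β' (Finsupp.mem_support_iff.2 hβx)
            rw [mem_pth] at hβ hβ' ⊢
            rw [hβ'.2.2, prefix_res_iff, length_res] at g2
            rw [length_res]
            exact ⟨by omega, by omega, g2.2⟩
        have := jn_add_sq w x (by norm_num : (0 : ℝ) ≤ 4) hcross
        have hx0 := jn_nonneg (𝒮 := treeSys) x
        push_cast
        nlinarith
      · rw [map_add]
        push_cast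
        linarith
  have : (1 : ℝ) = 0 := key_ineq (M := M) (C := 12) hη fun N => by
    obtain ⟨w, b, -, -, -, h4, h5⟩ := key N
    exact ⟨z w, jn treeSys w, h5, (le_abs_self _).trans (hz w), jn_nonneg w, h4⟩
  exact one_ne_zero this

theorem cauchy (hz : ∀ x, |z x| ≤ M * jn treeSys x) (σ : ℕ → Bool) :
    CauchySeq (fun n => z (Finsupp.single (res σ n) 1)) := by
  rw [Metric.cauchySeq_iff']
  by_contra hcon
  push Not at hcon
  obtain ⟨ε, hε, hcon⟩ := hcon
  apply ZB hz σ hε
  intro n
  obtain ⟨m, hm, hd⟩ := hcon n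
  rw [Real.dist_eq] at hd
  -- a signed difference
  have main : ∀ p q : ℕ, n ≤ p → n ≤ q →
      ε ≤ z (Finsupp.single (res σ p) 1) - z (Finsupp.single (res σ q) 1) →
      ∃ x : List Bool →₀ ℝ, (∀ β ∈ x.support, res σ n <+: β) ∧ bf σ 0 x = 0 ∧
      jn treeSys x ≤ 2 ∧ ε ≤ z x := by
    intro p q hp hq hpq
    refine ⟨Finsupp.single (res σ p) 1 - Finsupp.single (res σ q) 1, ?_, ?_, ?_, ?_⟩
    · intro β hβ
      rcases mem_union.1 (Finsupp.support_sub hβ) with h1 | h1
      · have := Finsupp.support_single_subset h1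
        rw [mem_singleton] at this
        rw [this]; exact res_prefix σ hp
      · have := Finsupp.support_single_subset h1
        rw [mem_singleton] at this
        rw [this]; exact res_prefix σ hq
    · rw [map_sub, bf_single, bf_single, length_res, length_res]
      simp
    · refine (jn_sub _ _).trans ?_
      have h1 := jn_single_le (𝒮 := treeSys) (res σ p) 1
      have h2 := jn_single_le (𝒮 := treeSys) (res σ q) 1
      rw [abs_one] at h1 h2
      linarith
    · rw [map_sub]; exact hpq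
  rcases le_abs.1 hd with h1 | h1
  · exact main m n hm le_rfl h1
  · exact main n m le_rfl hm (by linarith)

/-- the limit of a functional along a branch -/
noncomputable def th (z : (List Bool →₀ ℝ) →ₗ[ℝ] ℝ) (σ : ℕ → Bool) : ℝ :=
  limUnder atTop (fun n => z (Finsupp.single (res σ n) 1))

theorem th_tendsto (hz : ∀ x, |z x| ≤ M * jn treeSys x) (σ : ℕ → Bool) :
    Tendsto (fun n => z (Finsupp.single (res σ n) 1)) atTop (𝓝 (th z σ)) :=
  (cauchy hz σ).tendsto_limUnder

/-- near the branch `σ` the functional is a multiple of the branch functional -/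
theorem atom (hz : ∀ x, |z x| ≤ M * jn treeSys x) (σ : ℕ → Bool) {η : ℝ}
    (hη : 0 < η) : ∃ n, ∀ u : List Bool →₀ ℝ, (∀ β ∈ u.support, res σ n <+: β) →
      |z u - th z σ * bf σ 0 u| ≤ η * jn treeSys u := by
  by_contra hcon
  push Not at hcon
  set z' : (List Bool →₀ ℝ) →ₗ[ℝ] ℝ := z - th z σ • bf σ 0 with hz'
  have hz'x : ∀ x, z' x = z x - th z σ * bf σ 0 x := fun x => rfl
  have hz'b : ∀ x, |z' x| ≤ (M + |th z σ|) * jn treeSys x := by
    intro x
    rw [hz'x, add_mul]
    refine (abs_sub _ _).trans (add_le_add (hz x) ?_)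
    rw [abs_mul]
    exact mul_le_mul_of_nonneg_left (bf_le σ 0 x) (abs_nonneg _)
  have hlim : Tendsto (fun n => z' (Finsupp.single (res σ n) 1)) atTop (𝓝 0) := by
    have h1 := (th_tendsto hz σ).sub_const (th z σ)
    rw [sub_self] at h1
    refine h1.congr fun n => ?_
    rw [hz'x, bf_single, length_res]
    simp
  apply ZB hz'b σ (half_pos hη)
  intro n
  rw [Metric.tendsto_atTop] at hlim
  obtain ⟨n₁, hn₁⟩ := hlim (η / 2) (half_pos hη)
  set m := max n n₁ with hm
  obtain ⟨u, hu1, hu2⟩ := hcon m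
  rw [← hz'x] at hu2
  have hu0 : 0 < jn treeSys u := by
    rcases (jn_nonneg (𝒮 := treeSys) u).eq_or_lt with h | h
    · have hu : u = 0 := jn_eq_zero h.symm
      rw [hu, map_zero, jn_zero, mul_zero, abs_zero] at hu2
      exact absurd hu2 (lt_irrefl _)
    · exact h
  -- normalise
  obtain ⟨s, hs1, hs2⟩ : ∃ s : ℝ, |s| = 1 ∧ s * z' u = |z' u| := by
    rcases le_total 0 (z' u) with h | h
    · exact ⟨1, abs_one, by rw [abs_of_nonneg h, one_mul]⟩
    · exact ⟨-1, by simp, by rw [abs_of_nonpos h]; ring⟩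
  set v : List Bool →₀ ℝ := (s * (jn treeSys u)⁻¹) • u with hv
  have hvn : jn treeSys v = 1 := by
    rw [hv, jn_smul, abs_mul, hs1, one_mul, abs_inv, abs_of_pos hu0, inv_mul_cancel₀ hu0.ne']
  have hvz : η < z' v := by
    rw [hv, map_smul, smul_eq_mul, mul_comm s, mul_assoc, hs2]
    rw [lt_inv_mul_iff₀ hu0, mul_comm]
    exact hu2
  have hvs : ∀ β ∈ v.support, res σ m <+: β := fun β hβ => hu1 β (Finsupp.support_smul hβ)
  set r := bf σ 0 v with hr
  have hr1 : |r| ≤ 1 := by rw [hr, ← hvn]; exact bf_le σ 0 v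
  refine ⟨v - Finsupp.single (res σ m) r, ?_, ?_, ?_, ?_⟩
  · intro β hβ
    have hnm : res σ n <+: res σ m := res_prefix σ (le_max_left _ _)
    rcases mem_union.1 (Finsupp.support_sub hβ) with h1 | h1
    · exact hnm.trans (hvs β h1)
    · have := Finsupp.support_single_subset h1
      rw [mem_singleton] at this
      rw [this]; exact hnm
  · rw [map_sub, bf_single, length_res]
    simp [hr]
  · refine (jn_sub _ _).trans ?_
    have h1 := jn_single_le (𝒮 := treeSys) (res σ m) r
    linarith
  · have h1 := hn₁ m (le_max_right _ _)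
    rw [Real.dist_eq, sub_zero] at h1
    have h2 : z' (Finsupp.single (res σ m) r) = r * z' (Finsupp.single (res σ m) 1) := by
      rw [← smul_eq_mul, ← map_smul, Finsupp.smul_single, smul_eq_mul, mul_one]
    rw [map_sub, h2]
    have h3 : |r * z' (Finsupp.single (res σ m) 1)| ≤ η / 2 := by
      rw [abs_mul]
      nlinarith [abs_nonneg r, abs_nonneg (z' (Finsupp.single (res σ m) 1))]
    linarith [le_abs_self (r * z' (Finsupp.single (res σ m) 1))]

/-- separation of a finite set of branches at level `n` -/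
def Sep (F : Finset (ℕ → Bool)) (n : ℕ) : Prop :=
  ∀ σ ∈ F, ∀ τ ∈ F, σ ≠ τ → res σ n ≠ res τ n

theorem Sep.mono {F : Finset (ℕ → Bool)} {m n : ℕ} (h : Sep F m) (hmn : m ≤ n) : Sep F n :=
  fun σ hσ τ hτ hne heq => h σ hσ τ hτ hne (res_eq_of_le hmn heq)

theorem exists_sep (F : Finset (ℕ → Bool)) : ∃ n, Sep F n := by
  classical
  have h : ∀ p : (ℕ → Bool) × (ℕ → Bool), ∃ n, p.1 ≠ p.2 → res p.1 n ≠ res p.2 n := by
    intro p
    by_cases hp : p.1 = p.2
    · exact ⟨0, fun h => absurd hp h⟩
    · by_contra hcon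
      push Not at hcon
      exact hp (eq_of_res fun n => (hcon n).2)
  choose f hf using h
  refine ⟨(F ×ˢ F).sup f, fun σ hσ τ hτ hne heq => ?_⟩
  exact hf (σ, τ) hne (res_eq_of_le (le_sup (mem_product.2 ⟨hσ, hτ⟩)) heq)

/-- square summability of the limits -/
theorem sum_th_sq (hM : 0 ≤ M) (hz : ∀ x, |z x| ≤ M * jn treeSys x)
    (F : Finset (ℕ → Bool)) : ∑ σ ∈ F, th z σ ^ 2 ≤ M ^ 2 := by
  classical
  obtain ⟨n₀, hn₀⟩ := exists_sep F
  set A := ∑ σ ∈ F, th z σ ^ 2 with hA
  have hA0 : 0 ≤ A := sum_nonneg fun σ _ => sq_nonneg _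
  have key : ∀ n, n₀ ≤ n → |∑ σ ∈ F, th z σ * z (Finsupp.single (res σ n) 1)| ≤ M * √A := by
    intro n hn
    have hsep := hn₀.mono hn
    set x : List Bool →₀ ℝ := ∑ σ ∈ F, Finsupp.single (res σ n) (th z σ) with hx
    have hzx : z x = ∑ σ ∈ F, th z σ * z (Finsupp.single (res σ n) 1) := by
      rw [hx, map_sum]
      refine sum_congr rfl fun σ _ => ?_
      rw [← smul_eq_mul (th z σ), ← map_smul, Finsupp.smul_single, smul_eq_mul, mul_one]
    have hjx : jn treeSys x ≤ √A := by
      apply jn_le (Real.sqrt_nonneg _)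
      intro P hP
      rw [Real.sq_sqrt hA0]
      have h1 : ∀ S ∈ P, (∑ β ∈ S, x β) ^ 2 ≤ ∑ σ ∈ F, if res σ n ∈ S then th z σ ^ 2 else 0 := by
        intro S hS
        have h2 : ∑ β ∈ S, x β = ∑ σ ∈ F, if res σ n ∈ S then th z σ else 0 := by
          rw [hx]
          simp only [Finsupp.coe_finsetSum, Finset.sum_apply, Finsupp.single_apply]
          rw [sum_comm]
          refine sum_congr rfl fun σ _ => ?_
          rw [sum_ite_eq]
        rw [h2]
        by_cases hex : ∃ σ ∈ F, res σ n ∈ S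
        · obtain ⟨σ, hσ, hσS⟩ := hex
          have h3 : ∀ τ ∈ F, τ ≠ σ → res τ n ∉ S := by
            intro τ hτ hne hmem
            obtain ⟨ρ, a, b, -, rfl⟩ := exists_pth (hP.1 S hS)
            rw [mem_pth, length_res] at hmem hσS
            exact hsep τ hτ σ hσ hne (hmem.2.2.trans hσS.2.2.symm)
          rw [sum_eq_single_of_mem σ hσ fun τ hτ hne => if_neg (h3 τ hτ hne),
            sum_eq_single_of_mem σ hσ fun τ hτ hne => if_neg (h3 τ hτ hne), if_pos hσS,
            if_pos hσS]
        · push Not at hex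
          rw [sum_eq_zero fun σ hσ => if_neg (hex σ hσ)]
          have : (0 : ℝ) ^ 2 = 0 := by norm_num
          rw [this]
          exact sum_nonneg fun σ _ => by split_ifs <;> positivity
      refine (sum_le_sum h1).trans ?_
      rw [sum_comm]
      exact sum_le_sum fun σ _ => one_le hP (res σ n) (sq_nonneg _)
    rw [← hzx]
    exact (hz x).trans (mul_le_mul_of_nonneg_left hjx hM)
  have hlim : Tendsto (fun n => ∑ σ ∈ F, th z σ * z (Finsupp.single (res σ n) 1)) atTop
      (𝓝 (∑ σ ∈ F, th z σ * th z σ)) :=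
    tendsto_finsetSum _ fun σ _ => (th_tendsto hz σ).const_mul _
  have h1 : ∑ σ ∈ F, th z σ * th z σ = A := sum_congr rfl fun σ _ => (pow_two _).symm
  rw [h1] at hlim
  have h2 : A ≤ M * √A := by
    refine le_of_tendsto hlim ?_
    filter_upwards [eventually_ge_atTop n₀] with n hn
    exact (le_abs_self _).trans (key n hn)
  have h3 : √A ≤ M := by
    rcases hA0.eq_or_lt with h | h
    · rw [← h, Real.sqrt_zero]; exact hM
    · have hs : 0 < √A := Real.sqrt_pos.2 h
      have h4 : √A * √A ≤ M * √A := by rw [Real.mul_self_sqrt hA0]; exact h2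
      exact le_of_mul_le_mul_right h4 hs
  calc A = √A ^ 2 := (Real.sq_sqrt hA0).symm
    _ ≤ M ^ 2 := pow_le_pow_left₀ (Real.sqrt_nonneg _) h3 2

theorem bf_zero_sub {σ τ : ℕ → Bool} {n : ℕ} (m : ℕ) {u : List Bool →₀ ℝ}
    (hu : ∀ β ∈ u.support, res τ n <+: β) (hne : res σ n ≠ res τ n) : bf σ m u = 0 := by
  unfold bf
  rw [Finsupp.linearCombination_apply]
  apply Finset.sum_eq_zero
  intro β hβ
  have h1 := hu β hβ
  have h2 : ¬ (m ≤ β.length ∧ β = res σ β.length) := by
    rintro ⟨-, h⟩
    rw [h, prefix_res_iff, length_res] at h1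
    exact hne h1.2.symm
  change u β • (if m ≤ β.length ∧ β = res σ β.length then (1 : ℝ) else 0) = 0
  rw [if_neg h2, smul_zero]

theorem fan {P : List Bool → Prop} (hP : ∀ β γ, β <+: γ → P β → P γ)
    (h : ∀ σ : ℕ → Bool, ∃ n, P (res σ n)) : ∃ n, ∀ β : List Bool, n ≤ β.length → P β := by
  by_contra hcon
  push Not at hcon
  -- the nodes with arbitrarily long bad extensions
  set Q : List Bool → Prop := fun ν => ∀ n, ∃ β, ν <+: β ∧ n ≤ β.length ∧ ¬ P β with hQ
  have hQ0 : Q [] := fun n => by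
    obtain ⟨β, h1, h2⟩ := hcon n
    exact ⟨β, List.nil_prefix, h1, h2⟩
  have hstep : ∀ ν, Q ν → ∃ b : Bool, Q (ν ++ [b]) := by
    intro ν hν
    by_contra hno
    push Not at hno
    have h0 := hno false
    have h1 := hno true
    simp only [hQ] at h0 h1
    push Not at h0 h1
    obtain ⟨n₀, h0⟩ := h0
    obtain ⟨n₁, h1⟩ := h1
    obtain ⟨β, hβ1, hβ2, hβ3⟩ := hν (max (max n₀ n₁) (ν.length + 1))
    obtain ⟨γ, rfl⟩ := hβ1
    rcases γ with _ | ⟨b, γ⟩
    · rw [List.append_nil] at hβ2
      have := (le_max_right (max n₀ n₁) (ν.length + 1)).trans hβ2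
      omega
    · have hle := (le_max_left (max n₀ n₁) (ν.length + 1)).trans hβ2
      have hpre : ν ++ [b] <+: ν ++ b :: γ := ⟨γ, by simp⟩
      cases b
      · exact hβ3 (h0 _ hpre ((le_max_left _ _).trans hle))
      · exact hβ3 (h1 _ hpre ((le_max_right _ _).trans hle))
  choose! g hg using hstep
  -- the branch
  let f : ℕ → List Bool := fun n => Nat.rec [] (fun _ ν => ν ++ [g ν]) n
  have hf0 : f 0 = [] := rfl
  have hfs : ∀ n, f (n + 1) = f n ++ [g (f n)] := fun n => rfl
  have hfQ : ∀ n, Q (f n) := by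
    intro n
    induction n with
    | zero => exact hQ0
    | succ n ih => rw [hfs]; exact hg _ ih
  have hfres : ∀ n, f n = res (fun i => g (f i)) n := by
    intro n
    induction n with
    | zero => rfl
    | succ n ih =>
      have h1 : res (fun i => g (f i)) (n + 1) = res (fun i => g (f i)) n ++ [g (f n)] := by
        unfold res
        rw [List.range_succ, List.map_append]
        rfl
      rw [h1, ← ih, hfs]
  obtain ⟨n, hn⟩ := h (fun i => g (f i))
  rw [← hfres] at hn
  obtain ⟨β, h1, -, h3⟩ := hfQ n 0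
  exact h3 (hP _ _ h1 hn)

end

end Pool.Agent.X205.JT
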